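import Pool.Agent.Lib.MP_c98209_co.Defs

/-!
Simplicial vertices of chordal graphs.
-/

set_option autoImplicit false

namespace Pool.Agent.Lib.MP_c98209_co

variable {V : Type} {H : SimpleGraph V}

/-- A path of length k from x to y whose inner vertices lie in A. -/
def IsPth (H : SimpleGraph V) (A : Set V) (x y : V) (k : ℕ) (f : ℕ → V) : Prop :=
  f 0 = x ∧ f k = y ∧ (∀ i, i < k → H.Adj (f i) (f (i + 1))) ∧ ∀ i, 0 < i → i < k → f i ∈ A

theorem IsPth.shortcut {A : Set V} {x y : V} {k : ℕ} {f : ℕ → V} (h : IsPth H A x y k f)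
    {i j : ℕ} (hij : i + 1 < j) (hj : j ≤ k) (ha : H.Adj (f i) (f j)) :
    IsPth H A x y (k - (j - i - 1)) (fun m => if m ≤ i then f m else f (m + (j - i - 1))) := by
  obtain ⟨h0, hk, hadj, hin⟩ := h
  refine ⟨by simp [h0], ?_, ?_, ?_⟩
  · have h1 : ¬ (k - (j - i - 1) ≤ i) := by omega
    simp only [h1, if_false]
    rw [show k - (j - i - 1) + (j - i - 1) = k by omega, hk]
  · intro m hm
    by_cases h1 : m + 1 ≤ i
    · simp only [h1, show m ≤ i by omega, if_true]
      exact hadj m (by omega)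
    · by_cases h2 : m ≤ i
      · simp only [h1, h2, if_true, if_false]
        rw [show m = i by omega, show i + 1 + (j - i - 1) = j by omega]
        exact ha
      · simp only [h1, h2, if_false]
        rw [show m + 1 + (j - i - 1) = m + (j - i - 1) + 1 by omega]
        exact hadj _ (by omega)
  · intro m hm0 hm
    by_cases h2 : m ≤ i
    · simp only [h2, if_true]
      exact hin m hm0 (by omega)
    · simp only [h2, if_false]
      exact hin _ (by omega) (by omega)

/-- In a chordal graph two neighbours of w that are joined by a path through non-neighbours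
of w are adjacent. -/
theorem Chordal.adj_of_path (hc : Chordal H) {A : Set V} {w x y : V} (hxy : x ≠ y)
    (hwx : H.Adj w x) (hwy : H.Adj w y) (hA : ∀ a ∈ A, ¬ H.Adj w a ∧ a ≠ w)
    (hp : ∃ k f, IsPth H A x y k f) : H.Adj x y := by
  classical
  by_contra hn
  obtain ⟨f, hf⟩ := Nat.find_spec hp
  set k := Nat.find hp with hk
  have hmin : ∀ i j, i + 1 < j → j ≤ k → ¬ H.Adj (f i) (f j) := by
    intro i j hij hj ha
    exact Nat.find_min hp (m := k - (j - i - 1)) (by omega) ⟨_, hf.shortcut hij hj ha⟩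
  obtain ⟨h0, hk', hadj, hin⟩ := hf
  have hk2 : 2 ≤ k := by
    by_contra hlt
    have : k = 0 ∨ k = 1 := by omega
    rcases this with h | h
    · rw [h] at hk'
      exact hxy (h0.symm.trans hk')
    · have := hadj 0 (by omega)
      rw [h] at hk'
      rw [h0, Nat.zero_add, hk'] at this
      exact hn this
  have hwne : ∀ i, i ≤ k → f i ≠ w := by
    intro i hi
    by_cases h1 : i = 0
    · rw [h1, h0]; exact hwx.ne'
    · by_cases h2 : i = k
      · rw [h2, hk']; exact hwy.ne'
      · exact (hA _ (hin i (by omega) (by omega))).2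
  have hwadj : ∀ i, i ≤ k → (H.Adj w (f i) ↔ i = 0 ∨ i = k) := by
    intro i hi
    constructor
    · intro ha
      by_contra hne
      exact (hA _ (hin i (by omega) (by omega))).1 ha
    · rintro (h1 | h1)
      · rw [h1, h0]; exact hwx
      · rw [h1, hk']; exact hwy
  have hinj : ∀ i j, i < j → j ≤ k → f i ≠ f j := by
    intro i j hij hj he
    by_cases h1 : i + 1 = j
    · subst h1
      exact (hadj i (by omega)).ne he
    · by_cases h2 : j < k
      · have := hadj j h2
        rw [← he] at this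
        exact hmin i (j + 1) (by omega) (by omega) this
      · have hjk : j = k := by omega
        by_cases h3 : i = 0
        · rw [h3, hjk, h0, hk'] at he
          exact hxy he
        · have := hadj (i - 1) (by omega)
          rw [show i - 1 + 1 = i by omega, he] at this
          exact hmin (i - 1) j (by omega) hj this
  have hfadj : ∀ i j, i ≤ k → j ≤ k → (H.Adj (f i) (f j) ↔ i + 1 = j ∨ j + 1 = i) := by
    intro i j hi hj
    constructor
    · intro ha
      by_contra hne
      rcases lt_trichotomy i j with h | h | h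
      · exact hmin i j (by omega) hj ha
      · exact ha.ne (by rw [h])
      · exact hmin j i (by omega) hi ha.symm
    · rintro (h | h)
      · subst h; exact hadj i (by omega)
      · subst h; exact (hadj j (by omega)).symm
  let g : Fin (k + 2) → V := fun i => if i.val ≤ k then f i.val else w
  have hcyc : ∀ a b : Fin (k + 2), (SimpleGraph.cycleGraph (k + 2)).Adj a b ↔
      (a.val + 1 = b.val ∨ b.val + 1 = a.val ∨ (a.val = 0 ∧ b.val = k + 1) ∨
        (b.val = 0 ∧ a.val = k + 1)) := by
    intro a b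
    rw [SimpleGraph.cycleGraph_adj', Fin.sub_def, Fin.sub_def]
    have ha := a.isLt
    have hb := b.isLt
    simp only
    have e1 : ∀ p q : ℕ, p < k + 2 → q < k + 2 →
        (((k + 2 - q + p) % (k + 2) = 1) ↔ (q + 1 = p ∨ (p = 0 ∧ q = k + 1))) := by
      intro p q hp hq
      by_cases hpq : q ≤ p
      · rw [show k + 2 - q + p = (p - q) + (k + 2) by omega, Nat.add_mod_right,
          Nat.mod_eq_of_lt (by omega)]
        omega
      · rw [Nat.mod_eq_of_lt (by omega)]
        omega
    rw [e1 _ _ ha hb, e1 _ _ hb ha]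
    omega
  refine (hc (k + 2) (by omega)).false ⟨⟨g, ?_⟩, ?_⟩
  · intro a b hab
    simp only [g] at hab
    have ha := a.isLt
    have hb := b.isLt
    apply Fin.ext
    split_ifs at hab with h1 h2 h2
    · by_contra hne
      rcases lt_or_gt_of_ne hne with h | h
      · exact hinj _ _ h h2 hab
      · exact hinj _ _ h h1 hab.symm
    · exact absurd hab (hwne _ h1)
    · exact absurd hab.symm (hwne _ h2)
    · omega
  · intro a b
    have ha := a.isLt
    have hb := b.isLt
    rw [hcyc]
    simp only [Function.Embedding.coeFn_mk, g]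
    split_ifs with h1 h2 h2
    · rw [hfadj _ _ h1 h2]; omega
    · rw [H.adj_comm, hwadj _ h1]; omega
    · rw [hwadj _ h2]; omega
    · simp only [SimpleGraph.irrefl, false_iff]; omega

/-- s is simplicial in the subgraph induced on X. -/
def SimpIn (H : SimpleGraph V) (X : Finset V) (s : V) : Prop :=
  ∀ a ∈ X, ∀ b ∈ X, H.Adj s a → H.Adj s b → a ≠ b → H.Adj a b

/-- Every vertex of X with a non-neighbour in X has a simplicial non-neighbour. -/
def QP (H : SimpleGraph V) (X : Finset V) : Prop :=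
  ∀ w ∈ X, ∀ v ∈ X, v ≠ w → ¬ H.Adj w v → ∃ s ∈ X, s ≠ w ∧ ¬ H.Adj w s ∧ SimpIn H X s

theorem simp_of_clique_boundary {Y : Finset V} (hQ : QP H Y) (C : Set V)
    (hne : ∃ c ∈ Y, c ∈ C) (hS : ∀ a ∈ Y, ∀ b ∈ Y, a ∉ C → b ∉ C → a ≠ b → H.Adj a b) :
    ∃ s ∈ Y, s ∈ C ∧ SimpIn H Y s := by
  by_cases h1 : ∃ u ∈ Y, u ∉ C ∧ ∃ v ∈ Y, v ≠ u ∧ ¬ H.Adj u v
  · obtain ⟨u, hu, huC, v, hv, hvu, hn⟩ := h1
    obtain ⟨s, hs, hsu, hns, hsimp⟩ := hQ u hu v hv hvu hn
    refine ⟨s, hs, ?_, hsimp⟩
    by_contra hsC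
    exact hns (hS u hu s hs huC hsC hsu.symm)
  · push Not at h1
    by_cases h2 : ∃ c ∈ Y, ∃ v ∈ Y, v ≠ c ∧ ¬ H.Adj c v
    · obtain ⟨c, hc, v, hv, hvc, hn⟩ := h2
      obtain ⟨s, hs, hsc, hns, hsimp⟩ := hQ c hc v hv hvc hn
      refine ⟨s, hs, ?_, hsimp⟩
      by_contra hsC
      exact hns (h1 s hs hsC c hc hsc.symm).symm
    · push Not at h2
      obtain ⟨c, hc, hcC⟩ := hne
      exact ⟨c, hc, hcC, fun a ha b hb _ _ hab => h2 a ha b hb hab.symm⟩

theorem Chordal.qp (hc : Chordal H) (X : Finset V) : QP H X := by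
  classical
  induction X using Finset.strongInduction with
  | H X ih =>
    intro w hw v hv hvw hn
    let A : Set V := {a | a ∈ X ∧ ¬ H.Adj w a ∧ a ≠ w}
    let r : V → V → Prop := fun a b => H.Adj a b ∧ b ∈ A
    let C : Set V := {c | Relation.ReflTransGen r v c}
    have hvA : v ∈ A := ⟨hv, hn, hvw⟩
    have hCA : ∀ c ∈ C, c ∈ A := by
      intro c hc'
      induction hc' with
      | refl => exact hvA
      | tail _ h _ => exact h.2
    have hback : ∀ c ∈ C, Relation.ReflTransGen r c v := by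
      intro c hc'
      induction hc' with
      | refl => exact Relation.ReflTransGen.refl
      | @tail a b h1 h2 ih' =>
        exact Relation.ReflTransGen.head ⟨h2.1.symm, hCA a h1⟩ ih'
    have hpath : ∀ x c1, H.Adj x c1 → c1 ∈ A → ∀ c2, Relation.ReflTransGen r c1 c2 →
        ∃ k f, IsPth H A x c2 k f ∧ c2 ∈ A := by
      intro x c1 hx hc1 c2 h
      induction h with
      | refl =>
        refine ⟨1, fun i => if i = 0 then x else c1, ⟨by simp, by simp, ?_, ?_⟩, hc1⟩
        · intro i hi
          have : i = 0 := by omega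
          simp [this, hx]
        · intro i h1 h2; omega
      | @tail a b _ h2 ih' =>
        obtain ⟨k, f, ⟨h0, hk, hadj, hin⟩, ha⟩ := ih'
        refine ⟨k + 1, fun i => if i ≤ k then f i else b, ⟨by simp [h0], by simp, ?_, ?_⟩, h2.2⟩
        · intro i hi
          by_cases h3 : i + 1 ≤ k
          · simp only [h3, show i ≤ k by omega, if_true]
            exact hadj i (by omega)
          · simp only [h3, show i ≤ k by omega, if_true, if_false]
            rw [show i = k by omega, hk]
            exact h2.1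
        · intro i h3 h4
          simp only [show i ≤ k by omega, if_true]
          by_cases h5 : i = k
          · rw [h5, hk]; exact ha
          · exact hin i h3 (by omega)
    let Y : Finset V := X.filter (fun a => a ∈ C ∨ ∃ c ∈ C, H.Adj c a)
    have hYX : Y ⊂ X := by
      refine Finset.filter_ssubset.2 ⟨w, hw, ?_⟩
      rintro (h | ⟨c, hc', ha⟩)
      · exact (hCA w h).2.2 rfl
      · exact (hCA c hc').2.1 ha.symm
    have hbd : ∀ a ∈ Y, a ∉ C → H.Adj w a ∧ ∃ c ∈ C, H.Adj c a := by
      intro a ha haC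
      obtain ⟨haX, h | ⟨c, hc', hca⟩⟩ := Finset.mem_filter.1 ha
      · exact absurd h haC
      · refine ⟨?_, c, hc', hca⟩
        by_contra hwa
        refine haC (Relation.ReflTransGen.tail hc' ⟨hca, haX, hwa, ?_⟩)
        rintro rfl
        exact (hCA c hc').2.1 hca.symm
    obtain ⟨s, hs, hsC, hsimp⟩ := simp_of_clique_boundary (ih Y hYX) C
      ⟨v, Finset.mem_filter.2 ⟨hv, Or.inl Relation.ReflTransGen.refl⟩,
        Relation.ReflTransGen.refl⟩ (by
      intro a ha b hb haC hbC hab
      obtain ⟨hwa, c1, hc1, h1⟩ := hbd a ha haC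
      obtain ⟨hwb, c2, hc2, h2⟩ := hbd b hb hbC
      refine hc.adj_of_path (A := A) hab hwa hwb (fun a ha => ha.2) ?_
      obtain ⟨k, f, ⟨h0, hk, hadj, hin⟩, ha⟩ :=
        hpath a c1 h1.symm (hCA c1 hc1) c2 ((hback c1 hc1).trans hc2)
      refine ⟨k + 1, fun i => if i ≤ k then f i else b, by simp [h0], by simp, ?_, ?_⟩
      · intro i hi
        by_cases h3 : i + 1 ≤ k
        · simp only [h3, show i ≤ k by omega, if_true]
          exact hadj i (by omega)
        · simp only [h3, show i ≤ k by omega, if_true, if_false]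
          rw [show i = k by omega, hk]
          exact h2
      · intro i h3 h4
        simp only [show i ≤ k by omega, if_true]
        by_cases h5 : i = k
        · rw [h5, hk]; exact ha
        · exact hin i h3 (by omega))
    refine ⟨s, (Finset.mem_filter.1 hs).1, (hCA s hsC).2.2, (hCA s hsC).2.1, ?_⟩
    intro a ha b hb h1 h2 hab
    exact hsimp a (Finset.mem_filter.2 ⟨ha, Or.inr ⟨s, hsC, h1⟩⟩) b
      (Finset.mem_filter.2 ⟨hb, Or.inr ⟨s, hsC, h2⟩⟩) h1 h2 hab

/-- s is simplicial. -/
def Simp (H : SimpleGraph V) (s : V) : Prop :=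
  ∀ a b, H.Adj s a → H.Adj s b → a ≠ b → H.Adj a b

theorem Chordal.exists_simp_nonadj [Fintype V] (hc : Chordal H) {w v : V} (hvw : v ≠ w)
    (hn : ¬ H.Adj w v) : ∃ s, s ≠ w ∧ ¬ H.Adj w s ∧ Simp H s := by
  obtain ⟨s, -, h1, h2, h3⟩ := hc.qp Finset.univ w (Finset.mem_univ _) v (Finset.mem_univ _) hvw hn
  exact ⟨s, h1, h2, fun a b => h3 a (Finset.mem_univ _) b (Finset.mem_univ _)⟩

/-- If K is a clique and every simplicial vertex outside K has all its neighbours in K, then
every vertex outside K has all its neighbours in K. -/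
theorem Chordal.split_of_simp [Fintype V] (hc : Chordal H) (K : Finset V)
    (hK : ∀ a ∈ K, ∀ b ∈ K, a ≠ b → H.Adj a b)
    (hs : ∀ s, s ∉ K → Simp H s → ∀ u, H.Adj s u → u ∈ K) :
    ∀ v, v ∉ K → ∀ u, H.Adj v u → u ∈ K := by
  classical
  intro v hv u hvu
  by_contra hu
  let C : Set V := {c | c ∉ K ∧ ∃ d, d ∉ K ∧ H.Adj c d}
  let Y : Finset V := Finset.univ.filter (fun a => a ∈ K ∨ a ∈ C)
  obtain ⟨s, -, hsC, hsimp⟩ := simp_of_clique_boundary (hc.qp Y) C
    ⟨v, Finset.mem_filter.2 ⟨Finset.mem_univ _, Or.inr ⟨hv, u, hu, hvu⟩⟩, hv, u, hu, hvu⟩ (by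
      intro a ha b hb haC hbC hab
      exact hK a ((Finset.mem_filter.1 ha).2.resolve_right haC) b
        ((Finset.mem_filter.1 hb).2.resolve_right hbC) hab)
  have hmem : ∀ a, H.Adj s a → a ∈ Y := by
    intro a ha
    refine Finset.mem_filter.2 ⟨Finset.mem_univ _, ?_⟩
    by_cases haK : a ∈ K
    · exact Or.inl haK
    · exact Or.inr ⟨haK, s, hsC.1, ha.symm⟩
  obtain ⟨hsK, d, hd, hsd⟩ := hsC
  exact hd (hs s hsK (fun a b h1 h2 hab => hsimp a (hmem a h1) b (hmem b h2) h1 h2 hab) d hsd)

end Pool.Agent.Lib.MP_c98209_co
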