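import Pool.Agent.Lib.MP_c98209_co.Chordal

/-!
The combinatorial core: structure of the complement H of a minimally tough co-chordal graph
with co-diameter 2, from numerical consequences of minimal toughness.
-/

set_option autoImplicit false

namespace Pool.Agent.Lib.MP_c98209_co

open Finset

variable {V : Type} [Fintype V] [DecidableEq V] {H : SimpleGraph V} [DecidableRel H.Adj]

/-- The numerical hypotheses on the complement graph H and the toughness t. -/
structure Hyp (H : SimpleGraph V) [DecidableRel H.Adj] (t : ℝ) : Prop where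
  chordal : Chordal H
  tpos : 0 < t
  nontriv : Nontrivial V
  d2 : ∀ u v, u ≠ v → ¬ H.Adj u v → ∃ w, H.Adj u w ∧ H.Adj v w
  t1 : ∀ I U : Finset V, I.Nonempty → U.Nonempty → Disjoint I U →
    (∀ a ∈ I, ∀ b ∈ I, a ≠ b → H.Adj a b) → (∀ a ∈ I, ∀ b ∈ U, H.Adj a b) →
    t * (I.card + 1) + I.card + U.card ≤ Fintype.card V
  t2 : ∀ Q : Finset V, 2 ≤ Q.card → (∀ a ∈ Q, ∀ b ∈ Q, a ≠ b → H.Adj a b) →
    t * Q.card + Q.card ≤ Fintype.card V
  star : ∀ s s', Simp H s → Simp H s' → s ≠ s' → ¬ H.Adj s s' → ∃ A B : Finset V,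
    A ⊆ H.neighborFinset s \ H.neighborFinset s' ∧ B ⊆ H.neighborFinset s' \ H.neighborFinset s ∧
    (∀ a ∈ A, ∀ b ∈ B, H.Adj a b) ∧
    (Fintype.card V : ℝ) < t * ((H.neighborFinset s ∩ H.neighborFinset s').card + 2) +
      (H.neighborFinset s ∩ H.neighborFinset s').card + 2 + A.card + B.card

namespace Hyp

variable {t : ℝ}

theorem exists_nonadj (h : Hyp H t) (v : V) : ∃ u, u ≠ v ∧ ¬ H.Adj v u := by
  by_contra hn
  push Not at hn
  have := h.nontriv
  obtain ⟨u, hu⟩ := exists_ne v
  have h1 := h.t1 {v} (univ.erase v) (singleton_nonempty v) ⟨u, by simp [hu]⟩ (by simp)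
    (by simp) (by
      intro a ha b hb
      rw [mem_singleton] at ha
      rw [ha]
      exact hn b (ne_of_mem_erase hb))
  rw [card_singleton, card_erase_of_mem (mem_univ v), card_univ] at h1
  have h2 : 1 ≤ Fintype.card V := Fintype.card_pos_iff.2 ⟨v⟩
  rw [Nat.cast_sub h2] at h1
  have := h.tpos
  push_cast at h1
  linarith

theorem exists_simp (h : Hyp H t) (v : V) : ∃ s, s ≠ v ∧ ¬ H.Adj v s ∧ Simp H s := by
  obtain ⟨u, h1, h2⟩ := h.exists_nonadj v
  exact h.chordal.exists_simp_nonadj h1 h2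

theorem common_nonempty (h : Hyp H t) {s s' : V} (hne : s ≠ s') (hn : ¬ H.Adj s s') :
    (H.neighborFinset s ∩ H.neighborFinset s').Nonempty := by
  obtain ⟨w, h1, h2⟩ := h.d2 s s' hne hn
  exact ⟨w, by simp [h1, h2]⟩

/-- The refined consequences of criticality of the edge between two simplicial vertices. -/
theorem star' (h : Hyp H t) {s s' : V} (hs : Simp H s) (hs' : Simp H s') (hne : s ≠ s')
    (hn : ¬ H.Adj s s') : ∃ A B : Finset V,
    A ⊆ H.neighborFinset s \ H.neighborFinset s' ∧ B ⊆ H.neighborFinset s' \ H.neighborFinset s ∧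
    (∀ a ∈ A, ∀ b ∈ B, H.Adj a b) ∧
    (Fintype.card V : ℝ) < t * ((H.neighborFinset s ∩ H.neighborFinset s').card + 2) +
      (H.neighborFinset s ∩ H.neighborFinset s').card + 2 + A.card + B.card ∧
    t * (A.card - 1) < 1 ∧ t * (B.card - 1) < 1 ∧
    ∀ U : Finset V, U.Nonempty → Disjoint (H.neighborFinset s ∩ H.neighborFinset s') U →
      (∀ a ∈ H.neighborFinset s ∩ H.neighborFinset s', ∀ b ∈ U, H.Adj a b) →
      (U.card : ℝ) < t + 2 + A.card + B.card := by
  have aux : ∀ {s s' : V} (_ : Simp H s) (_ : Simp H s') (_ : s ≠ s') (_ : ¬ H.Adj s s')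
      (A B : Finset V), A ⊆ H.neighborFinset s \ H.neighborFinset s' →
      B ⊆ H.neighborFinset s' \ H.neighborFinset s → (∀ a ∈ A, ∀ b ∈ B, H.Adj a b) →
      (Fintype.card V : ℝ) < t * ((H.neighborFinset s ∩ H.neighborFinset s').card + 2) +
      (H.neighborFinset s ∩ H.neighborFinset s').card + 2 + A.card + B.card →
      t * (A.card - 1) < 1 := by
    intro s s' hs hs' hne hn A B hA hB hAB hlt
    have hA' : ∀ a ∈ A, H.Adj s a ∧ ¬ H.Adj s' a := fun a ha => by simpa using hA ha
    have hB' : ∀ a ∈ B, H.Adj s' a ∧ ¬ H.Adj s a := fun a ha => by simpa using hB ha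
    have hd1 : Disjoint (H.neighborFinset s ∩ H.neighborFinset s') A := by
      rw [disjoint_left]
      intro a ha ha'
      exact (hA' a ha').2 (by simpa using (mem_inter.1 ha).2)
    have hsB : s ∉ B := fun hh => hn (hB' s hh).1.symm
    have hI : ∀ a ∈ (H.neighborFinset s ∩ H.neighborFinset s') ∪ A, H.Adj s a := by
      intro a ha
      rcases mem_union.1 ha with h1 | h1
      · simpa using (mem_inter.1 h1).1
      · exact (hA' a h1).1
    have h1 := h.t1 ((H.neighborFinset s ∩ H.neighborFinset s') ∪ A) (insert s B)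
      ((h.common_nonempty hne hn).mono subset_union_left) (insert_nonempty _ _)
      (by
        rw [disjoint_left]
        intro a ha ha'
        rcases mem_insert.1 ha' with rfl | h2
        · exact (hI a ha).ne rfl
        · exact (hB' a h2).2 (hI a ha))
      (fun a ha b hb hab => hs a b (hI a ha) (hI b hb) hab)
      (by
        intro a ha b hb
        rcases mem_insert.1 hb with rfl | h2
        · exact (hI a ha).symm
        · rcases mem_union.1 ha with h1 | h1
          · refine hs' a b (by simpa using (mem_inter.1 h1).2) (hB' b h2).1 ?_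
            rintro rfl
            exact (hB' a h2).2 (hI a ha)
          · exact hAB a h1 b h2)
    rw [card_union_of_disjoint hd1, card_insert_of_notMem hsB] at h1
    push_cast at h1
    nlinarith
  obtain ⟨A, B, hA, hB, hAB, hlt⟩ := h.star s s' hs hs' hne hn
  refine ⟨A, B, hA, hB, hAB, hlt, aux hs hs' hne hn A B hA hB hAB hlt, ?_, ?_⟩
  · refine aux hs' hs hne.symm (fun hh => hn hh.symm) B A hB hA
      (fun a ha b hb => (hAB b hb a ha).symm) ?_
    rw [inter_comm]
    linarith
  · intro U hU hd hZU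
    have h1 := h.t1 _ U (h.common_nonempty hne hn) hU hd
      (fun a ha b hb hab => hs a b (by simpa using (mem_inter.1 ha).1)
        (by simpa using (mem_inter.1 hb).1) hab) hZU
    nlinarith

/-- The case of toughness at least one is impossible. -/
theorem lt_one (h : Hyp H t) : t < 1 := by
  by_contra ht
  push Not at ht
  have hA1 : ∀ A : Finset V, t * (A.card - 1) < 1 → A.card ≤ 1 := by
    intro A hA
    by_contra hlt
    have : (2 : ℝ) ≤ A.card := by exact_mod_cast (by omega : 2 ≤ A.card)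
    nlinarith
  have hP : ∀ Q : Finset V, (∀ a ∈ Q, ∀ b ∈ Q, a ≠ b → H.Adj a b) → ∀ s s', Simp H s →
      Simp H s' → s ≠ s' → ¬ H.Adj s s' →
      Q.card ≤ (H.neighborFinset s ∩ H.neighborFinset s').card + 2 := by
    intro Q hQ s s' hs hs' hne hn
    by_contra hlt
    obtain ⟨A, B, -, -, -, h1, h2, h3, -⟩ := h.star' hs hs' hne hn
    have h4 := h.t2 Q (by omega) hQ
    have h5 : (A.card : ℝ) ≤ 1 := by exact_mod_cast hA1 A h2
    have h6 : (B.card : ℝ) ≤ 1 := by exact_mod_cast hA1 B h3
    have h7 : ((H.neighborFinset s ∩ H.neighborFinset s').card : ℝ) + 3 ≤ Q.card := by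
      exact_mod_cast (by omega : (H.neighborFinset s ∩ H.neighborFinset s').card + 3 ≤ Q.card)
    nlinarith
  have hcl : ∀ s, Simp H s → ∀ a ∈ insert s (H.neighborFinset s),
      ∀ b ∈ insert s (H.neighborFinset s), a ≠ b → H.Adj a b := by
    intro s hs a ha b hb hab
    rcases mem_insert.1 ha with rfl | h1
    · rcases mem_insert.1 hb with rfl | h2
      · exact absurd rfl hab
      · simpa using h2
    · rcases mem_insert.1 hb with rfl | h2
      · exact (by simpa using h1 : H.Adj b a).symm
      · exact hs a b (by simpa using h1) (by simpa using h2) hab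
  have hcard : ∀ s, (insert s (H.neighborFinset s)).card = (H.neighborFinset s).card + 1 :=
    fun s => card_insert_of_notMem (by simp)
  -- for a simplicial s and a neighbour w, a simplicial non-neighbour of w
  have hsw : ∀ s, Simp H s → ∀ w, H.Adj s w → ∃ s', Simp H s' ∧ s' ≠ w ∧ ¬ H.Adj w s' ∧
      s ≠ s' ∧ ¬ H.Adj s s' ∧
      H.neighborFinset s ∩ H.neighborFinset s' = (H.neighborFinset s).erase w := by
    intro s hs w hw
    obtain ⟨s', h1, h2, h3⟩ := h.exists_simp w
    have h4 : s ≠ s' := by rintro rfl; exact h2 hw.symm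
    have h5 : ¬ H.Adj s s' := fun hh => h2 (hs w s' hw hh h1.symm)
    refine ⟨s', h3, h1, h2, h4, h5, ?_⟩
    apply eq_of_subset_of_card_le
    · intro a ha
      refine mem_erase.2 ⟨?_, (mem_inter.1 ha).1⟩
      rintro rfl
      exact h2 (by simpa using (mem_inter.1 ha).2 : H.Adj s' a).symm
    · have := hP _ (hcl s hs) s s' hs h3 h4 h5
      rw [hcard] at this
      rw [card_erase_of_mem (by simpa using hw)]
      omega
  have hnb : ∀ s, ∃ w, H.Adj s w := by
    intro s
    obtain ⟨u, h1, h2⟩ := h.exists_nonadj s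
    obtain ⟨w, h3, -⟩ := h.d2 s u h1.symm h2
    exact ⟨w, h3⟩
  have hQ : ∀ s, Simp H s → ∀ Q : Finset V, (∀ a ∈ Q, ∀ b ∈ Q, a ≠ b → H.Adj a b) →
      Q.card ≤ (H.neighborFinset s).card + 1 := by
    intro s hs Q hQ
    obtain ⟨w, hw⟩ := hnb s
    obtain ⟨s', h1, -, -, h4, h5, h6⟩ := hsw s hs w hw
    have := hP Q hQ s s' hs h1 h4 h5
    rw [h6, card_erase_of_mem (by simpa using hw)] at this
    have : 0 < (H.neighborFinset s).card := card_pos.2 ⟨w, by simpa using hw⟩
    omega
  have hdeg : ∀ s s', Simp H s → Simp H s' →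
      (H.neighborFinset s).card = (H.neighborFinset s').card := by
    intro s s' hs hs'
    have h1 := hQ s hs _ (hcl s' hs')
    have h2 := hQ s' hs' _ (hcl s hs)
    rw [hcard] at h1 h2
    omega
  have := h.nontriv
  obtain ⟨s1, -, -, hs1⟩ := h.exists_simp (Classical.arbitrary V)
  set N1 := H.neighborFinset s1 with hN1
  -- shape of the neighbourhoods of simplicial vertices not adjacent to s1
  have hshape : ∀ s, Simp H s → s1 ≠ s → ¬ H.Adj s1 s → ∀ y, H.Adj s y → y ∉ N1 →
      ∃ w ∈ N1, H.neighborFinset s = insert y (N1.erase w) := by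
    intro s hs hne hn y hy hyN
    have h1 := hP _ (hcl s1 hs1) s1 s hs1 hs hne hn
    rw [hcard] at h1
    have h2 := hdeg s1 s hs1 hs
    have h3 : N1 ∩ H.neighborFinset s ⊆ (H.neighborFinset s).erase y := by
      intro a ha
      refine mem_erase.2 ⟨?_, (mem_inter.1 ha).2⟩
      rintro rfl
      exact hyN (mem_inter.1 ha).1
    have h4 := card_le_card h3
    have hyS : y ∈ H.neighborFinset s := by simpa using hy
    rw [card_erase_of_mem hyS] at h4
    have h5 : 0 < (H.neighborFinset s).card := card_pos.2 ⟨y, hyS⟩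
    have h6 : (N1 \ H.neighborFinset s).card = 1 := by
      have := card_sdiff_add_card_inter N1 (H.neighborFinset s)
      rw [← hN1] at h1 h2
      omega
    obtain ⟨w, hw⟩ := card_eq_one.1 h6
    have hwN : w ∈ N1 \ H.neighborFinset s := by rw [hw]; exact mem_singleton_self w
    refine ⟨w, (mem_sdiff.1 hwN).1, ?_⟩
    symm
    apply eq_of_subset_of_card_le
    · intro a ha
      rcases mem_insert.1 ha with rfl | h7
      · exact hyS
      · by_contra h8
        have : a ∈ N1 \ H.neighborFinset s := mem_sdiff.2 ⟨(mem_erase.1 h7).2, h8⟩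
        rw [hw, mem_singleton] at this
        exact (mem_erase.1 h7).1 this
    · rw [card_insert_of_notMem (fun hh => hyN (mem_erase.1 hh).2),
        card_erase_of_mem (mem_sdiff.1 hwN).1]
      rw [← hN1] at h2
      omega
  have hsw1 : ∀ w ∈ N1, ∃ s y, Simp H s ∧ s1 ≠ s ∧ ¬ H.Adj s1 s ∧ y ∉ N1 ∧
      H.neighborFinset s = insert y (N1.erase w) := by
    intro w hw
    obtain ⟨s, h1, h2, h3, h4, h5, h6⟩ := hsw s1 hs1 w (by simpa [hN1] using hw)
    have h7 := hdeg s1 s hs1 h1
    have h8 : ¬ H.neighborFinset s ⊆ N1 := by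
      intro hsub
      have := eq_of_subset_of_card_le hsub (by rw [← hN1] at h7; omega)
      rw [← this] at hw
      exact h3 (by simpa using hw : H.Adj s w).symm
    obtain ⟨y, hy, hyN⟩ := not_subset.1 h8
    obtain ⟨w', hw', h9⟩ := hshape s h1 h4 h5 y (by simpa using hy) hyN
    refine ⟨s, y, h1, h4, h5, hyN, ?_⟩
    by_cases hww : w = w'
    · rw [hww]; exact h9
    · exfalso
      have : w ∈ H.neighborFinset s := by
        rw [h9]; exact mem_insert_of_mem (mem_erase.2 ⟨hww, hw⟩)
      exact h3 (by simpa using this : H.Adj s w).symm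
  have hY : ∀ s s' w w' y y', Simp H s → Simp H s' → ¬ H.Adj s1 s' → w ∈ N1 → w' ∈ N1 → w ≠ w' →
      y ∉ N1 → y' ∉ N1 → H.neighborFinset s = insert y (N1.erase w) →
      H.neighborFinset s' = insert y' (N1.erase w') → y = y' := by
    intro s s' w w' y y' hs hs' hn' hw hw' hww hy hy' e1 e2
    have h1 : H.Adj s w' := by
      have : w' ∈ H.neighborFinset s := by
        rw [e1]; exact mem_insert_of_mem (mem_erase.2 ⟨hww.symm, hw'⟩)
      simpa using this
    have h2 : ¬ H.Adj s' w' := by
      intro hh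
      have : w' ∈ H.neighborFinset s' := by simpa using hh
      rw [e2] at this
      rcases mem_insert.1 this with h3 | h3
      · exact hy' (h3 ▸ hw')
      · exact (mem_erase.1 h3).1 rfl
    have h3 : s ≠ s' := by rintro rfl; exact h2 h1
    have h4 : ¬ H.Adj s s' := by
      intro hh
      refine h2 (hs s' w' hh h1 ?_)
      rintro rfl
      exact hn' (by simpa [hN1] using hw')
    have h5 := hP _ (hcl s1 hs1) s s' hs hs' h3 h4
    rw [hcard, ← hN1] at h5
    by_contra hyy
    have h6 : H.neighborFinset s ∩ H.neighborFinset s' ⊆ (N1.erase w).erase w' := by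
      intro a ha
      rw [e1, e2] at ha
      obtain ⟨ha1, ha2⟩ := mem_inter.1 ha
      rcases mem_insert.1 ha1 with h7 | h7
      · rcases mem_insert.1 ha2 with h8 | h8
        · exact absurd (h7.symm.trans h8) hyy
        · exact absurd (h7 ▸ (mem_erase.1 h8).2) hy
      · rcases mem_insert.1 ha2 with h8 | h8
        · exact absurd (h8 ▸ (mem_erase.1 h7).2) hy'
        · exact mem_erase.2 ⟨(mem_erase.1 h8).1, h7⟩
    have h7 := card_le_card h6
    rw [card_erase_of_mem (mem_erase.2 ⟨hww.symm, hw'⟩), card_erase_of_mem hw] at h7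
    have h8 : 2 ≤ N1.card := by
      have := card_le_card (show ({w, w'} : Finset V) ⊆ N1 by
        intro a ha
        rcases mem_insert.1 ha with rfl | h9
        · exact hw
        · rw [mem_singleton.1 h9]; exact hw')
      rwa [card_pair hww] at this
    omega
  obtain ⟨w0, hw0'⟩ := hnb s1
  have hw0 : w0 ∈ N1 := by simpa [hN1] using hw0'
  obtain ⟨s0, y, hs0, hne0, hn0, hy, e0⟩ := hsw1 w0 hw0
  have hother : ∀ w ∈ N1, ∃ w' ∈ N1, w ≠ w' := by
    intro w hw
    obtain ⟨s, y', -, h2, h3, h4, h5⟩ := hsw1 w hw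
    obtain ⟨w', h6, h7⟩ := h.d2 s1 s h2 h3
    have h8 : w' ∈ H.neighborFinset s := by simpa using h7
    have h9 : w' ∈ N1 := by simpa [hN1] using h6
    rw [h5] at h8
    rcases mem_insert.1 h8 with h10 | h10
    · exact absurd (h10 ▸ h9) h4
    · exact ⟨w', h9, (mem_erase.1 h10).1.symm⟩
  have hyall : ∀ s w y', Simp H s → ¬ H.Adj s1 s → w ∈ N1 → y' ∉ N1 →
      H.neighborFinset s = insert y' (N1.erase w) → y' = y := by
    intro s w y' hs hn hw hy' e
    by_cases hww : w = w0
    · obtain ⟨w', hw', hne'⟩ := hother w hw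
      obtain ⟨s2, y2, a1, -, a3, a4, a5⟩ := hsw1 w' hw'
      rw [hY s s2 w w' y' y2 hs a1 a3 hw hw' hne' hy' a4 e a5]
      exact (hY s0 s2 w0 w' y y2 hs0 a1 a3 hw0 hw' (hww ▸ hne') hy a4 e0 a5).symm
    · exact hY s s0 w w0 y' y hs hs0 hn0 hw hw0 hww hy' hy e e0
  have hyadj : ∀ w ∈ N1, H.Adj y w := by
    intro w hw
    obtain ⟨w', hw', hne'⟩ := hother w hw
    obtain ⟨s2, y2, a1, -, a3, a4, a5⟩ := hsw1 w' hw'
    have := hyall s2 w' y2 a1 a3 hw' a4 a5
    subst this
    refine a1 y2 w ?_ ?_ (by rintro rfl; exact a4 hw)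
    · have : y2 ∈ H.neighborFinset s2 := by rw [a5]; exact mem_insert_self _ _
      simpa using this
    · have : w ∈ H.neighborFinset s2 := by
        rw [a5]; exact mem_insert_of_mem (mem_erase.2 ⟨hne', hw⟩)
      simpa using this
  let W := insert y N1
  have hW : ∀ a ∈ W, ∀ b ∈ W, a ≠ b → H.Adj a b := by
    intro a ha b hb hab
    rcases mem_insert.1 ha with rfl | h1
    · rcases mem_insert.1 hb with rfl | h2
      · exact absurd rfl hab
      · exact hyadj b h2
    · rcases mem_insert.1 hb with rfl | h2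
      · exact (hyadj a h1).symm
      · exact hs1 a b (by simpa [hN1] using h1) (by simpa [hN1] using h2) hab
  have hsplit : ∀ v, v ∉ W → ∀ u, H.Adj v u → u ∈ W := by
    refine h.chordal.split_of_simp W hW ?_
    intro s hsW hs u hu
    by_cases huN : u ∈ N1
    · exact mem_insert_of_mem huN
    · by_cases h1 : s1 = s
      · subst h1
        exact absurd (by simpa [hN1] using hu) huN
      · have h2 : ¬ H.Adj s1 s := fun hh => hsW (mem_insert_of_mem (by simpa [hN1] using hh))
        obtain ⟨w, hw, e⟩ := hshape s hs h1 h2 u hu huN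
        rw [hyall s w u hs h2 hw huN e]
        exact mem_insert_self _ _
  have hone : ∀ v, v ∉ W → ∀ a ∈ W, ∀ b ∈ W, ¬ H.Adj v a → ¬ H.Adj v b → a = b := by
    intro v hv a ha b hb h1 h2
    by_contra hab
    have hv' : Simp H v := fun c d h3 h4 hcd => hW c (hsplit v hv c h3) d (hsplit v hv d h4) hcd
    have h3 := hdeg s1 v hs1 hv'
    have h4 : H.neighborFinset v ⊆ (W.erase a).erase b := by
      intro c hc
      have hc' : H.Adj v c := by simpa using hc
      refine mem_erase.2 ⟨?_, mem_erase.2 ⟨?_, hsplit v hv c hc'⟩⟩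
      · rintro rfl; exact h2 hc'
      · rintro rfl; exact h1 hc'
    have h5 := card_le_card h4
    rw [card_erase_of_mem (mem_erase.2 ⟨Ne.symm hab, hb⟩), card_erase_of_mem ha,
      card_insert_of_notMem hy] at h5
    have : 0 < N1.card := card_pos.2 ⟨w0, hw0⟩
    rw [← hN1] at h3
    omega
  -- non-neighbourhoods
  let D : V → Finset V := fun w => (univ.erase w) \ H.neighborFinset w
  have hD : ∀ w, 2 * t ≤ (D w).card := by
    intro w
    obtain ⟨u, hu⟩ := hnb w
    have h1 := h.t1 {w} (H.neighborFinset w) (singleton_nonempty w) ⟨u, by simpa using hu⟩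
      (by simp) (by simp) (by simp)
    have h2 : (D w).card + (H.neighborFinset w).card + 1 = Fintype.card V := by
      have h3 : H.neighborFinset w ⊆ univ.erase w := by
        intro a ha
        exact mem_erase.2 ⟨(by simpa using ha : H.Adj w a).ne', mem_univ _⟩
      have h4 := card_sdiff_add_card_eq_card h3
      rw [card_erase_of_mem (mem_univ w), card_univ] at h4
      have h5 : 1 ≤ Fintype.card V := Fintype.card_pos_iff.2 ⟨w⟩
      simp only [D]
      omega
    rw [card_singleton, ← h2] at h1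
    push_cast at h1
    linarith
  have hDW : ∀ w ∈ W, ∀ a ∈ D w, a ∉ W ∧ ¬ H.Adj a w := by
    intro w hw a ha
    have h1 : ¬ H.Adj w a := by simpa using (mem_sdiff.1 ha).2
    have h2 : a ≠ w := (mem_erase.1 (mem_sdiff.1 ha).1).1
    exact ⟨fun hh => h1 (hW w hw a hh h2.symm), fun hh => h1 hh.symm⟩
  have hyW : y ∈ W := mem_insert_self _ _
  have hw0W : w0 ∈ W := mem_insert_of_mem hw0
  have hyw0 : y ≠ w0 := by rintro rfl; exact hy hw0
  obtain ⟨A, B, -, -, -, -, h2, h3, h4⟩ := h.star' hs1 hs0 hne0 hn0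
  have hZ : ∀ a ∈ H.neighborFinset s1 ∩ H.neighborFinset s0, a ∈ W ∧ a ≠ y ∧ a ≠ w0 := by
    intro a ha
    obtain ⟨ha1, ha2⟩ := mem_inter.1 ha
    rw [e0] at ha2
    have h5 : a ≠ y := by rintro rfl; exact hy ha1
    exact ⟨mem_insert_of_mem ha1, h5, (mem_erase.1 ((mem_insert.1 ha2).resolve_left h5)).1⟩
  have hdD : Disjoint (D y) (D w0) := by
    rw [disjoint_left]
    intro a h5 h6
    exact hyw0 (hone a (hDW y hyW a h5).1 y hyW w0 hw0W (hDW y hyW a h5).2 (hDW w0 hw0W a h6).2)
  have hout : ∀ a ∈ D y ∪ D w0, a ∉ W := by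
    intro a ha
    rcases mem_union.1 ha with h5 | h5
    · exact (hDW y hyW a h5).1
    · exact (hDW w0 hw0W a h5).1
  have h5 := h4 (insert y (insert w0 (D y ∪ D w0))) (insert_nonempty _ _)
    (by
      rw [disjoint_left]
      intro a ha ha'
      obtain ⟨b1, b2, b3⟩ := hZ a ha
      rcases mem_insert.1 ha' with h6 | h6
      · exact b2 h6
      · rcases mem_insert.1 h6 with h7 | h7
        · exact b3 h7
        · exact hout a h7 b1)
    (by
      intro a ha b hb
      obtain ⟨b1, b2, b3⟩ := hZ a ha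
      rcases mem_insert.1 hb with rfl | h6
      · exact hW a b1 b hyW b2
      · rcases mem_insert.1 h6 with rfl | h7
        · exact hW a b1 b hw0W b3
        · by_contra h8
          rcases mem_union.1 h7 with h9 | h9
          · exact b2 (hone b (hout b h7) a b1 y hyW (fun hh => h8 hh.symm) (hDW y hyW b h9).2)
          · exact b3 (hone b (hout b h7) a b1 w0 hw0W (fun hh => h8 hh.symm)
              (hDW w0 hw0W b h9).2))
  rw [card_insert_of_notMem (by
      intro hh
      rcases mem_insert.1 hh with h6 | h6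
      · exact hyw0 h6
      · exact hout y h6 hyW),
    card_insert_of_notMem (fun hh => hout w0 hh hw0W), card_union_of_disjoint hdD] at h5
  have h6 : (A.card : ℝ) ≤ 1 := by exact_mod_cast hA1 A h2
  have h7 : (B.card : ℝ) ≤ 1 := by exact_mod_cast hA1 B h3
  have h8 := hD y
  have h9 := hD w0
  push_cast at h5
  linarith

end Hyp

end Pool.Agent.Lib.MP_c98209_co
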