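import Mathlib

set_option autoImplicit false

namespace Pool.Agent.Lib.MP_c98209_co

open scoped ENNReal

/-- The number of connected components of G - S. -/
noncomputable def numComp {V : Type} (G : SimpleGraph V) (S : Finset V) : ℕ :=
  Nat.card (G.induce ((S : Set V)ᶜ)).ConnectedComponent

/-- Toughness: the minimum of |S| / c(G - S) over separators S, and infinity if there is none. -/
noncomputable def toughness {V : Type} (G : SimpleGraph V) : ℝ≥0∞ :=
  ⨅ (S : Finset V) (_ : 2 ≤ numComp G S), (S.card : ℝ≥0∞) / (numComp G S : ℝ≥0∞)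

/-- Deleting any edge decreases the toughness. -/
def MinimallyTough {V : Type} (G : SimpleGraph V) : Prop :=
  ∀ e ∈ G.edgeSet, toughness (G.deleteEdges {e}) < toughness G

/-- No induced cycle of length at least 4. -/
def Chordal {V : Type} (H : SimpleGraph V) : Prop :=
  ∀ k : ℕ, 4 ≤ k → IsEmpty (SimpleGraph.cycleGraph k ↪g H)

/-- Three stars with l leaves each whose centres (i, none) are joined pairwise. -/
def triStar (l : ℕ) : SimpleGraph (Fin 3 × Option (Fin l)) :=
  SimpleGraph.fromRel (fun x y => x.2 = none ∧ (y.2 = none ∨ x.1 = y.1))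

end Pool.Agent.Lib.MP_c98209_co
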