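import Pool.Agent.Lib.MP_c98209_co.Core

/-!
The case of small toughness: the complement of H is a triangle with equally many pendant
vertices at each corner.
-/

set_option autoImplicit false

namespace Pool.Agent.Lib.MP_c98209_co

open Finset

variable {V : Type} [Fintype V] [DecidableEq V] {H : SimpleGraph V} [DecidableRel H.Adj]

namespace Hyp

variable {t : ℝ}

theorem pair (h : Hyp H t) {s s' : V} (hs : Simp H s) (hs' : Simp H s') (hne : s ≠ s')
    (hn : ¬ H.Adj s s') :
    (∀ x y, H.Adj s x → H.Adj s' y → x ≠ y → H.Adj x y) ∧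
    (∀ y, (∀ x, H.Adj s x → H.Adj s' x → H.Adj x y) →
      H.Adj s y ∨ H.Adj s' y ∨ y = s ∨ y = s') := by
  have ht := h.lt_one
  obtain ⟨A, B, hA, hB, hAB, -, -, -, h4⟩ := h.star' hs hs' hne hn
  have hA' : ∀ a ∈ A, H.Adj s a ∧ ¬ H.Adj s' a := fun a ha => by simpa using hA ha
  have hB' : ∀ a ∈ B, H.Adj s' a ∧ ¬ H.Adj s a := fun a ha => by simpa using hB ha
  have hd : Disjoint A B := by
    rw [disjoint_left]
    intro a ha hb
    exact (hB' a hb).2 (hA' a ha).1
  have key : ∀ y, (∀ x, H.Adj s x → H.Adj s' x → H.Adj x y) →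
      y ∈ A ∨ y ∈ B ∨ y = s ∨ y = s' := by
    intro y hy
    by_contra hno
    push Not at hno
    obtain ⟨n1, n2, n3, n4⟩ := hno
    have h5 := h4 (insert y (insert s (insert s' (A ∪ B)))) (insert_nonempty _ _)
      (by
        rw [disjoint_left]
        intro a ha ha'
        have a1 : H.Adj s a := by simpa using (mem_inter.1 ha).1
        have a2 : H.Adj s' a := by simpa using (mem_inter.1 ha).2
        simp only [mem_insert, mem_union] at ha'
        rcases ha' with h6 | h6 | h6 | h6 | h6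
        · exact (hy a a1 a2).ne h6
        · exact a1.ne h6.symm
        · exact a2.ne h6.symm
        · exact (hA' a h6).2 a2
        · exact (hB' a h6).2 a1)
      (by
        intro a ha b hb
        have a1 : H.Adj s a := by simpa using (mem_inter.1 ha).1
        have a2 : H.Adj s' a := by simpa using (mem_inter.1 ha).2
        simp only [mem_insert, mem_union] at hb
        rcases hb with h6 | h6 | h6 | h6 | h6
        · rw [h6]; exact hy a a1 a2
        · rw [h6]; exact a1.symm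
        · rw [h6]; exact a2.symm
        · exact hs a b a1 (hA' b h6).1 (by rintro rfl; exact (hA' a h6).2 a2)
        · exact hs' a b a2 (hB' b h6).1 (by rintro rfl; exact (hB' a h6).2 a1))
    rw [card_insert_of_notMem (by simp [n1, n2, n3, n4]),
      card_insert_of_notMem (by
        simp only [mem_insert, mem_union, not_or]
        exact ⟨hne, fun hh => (hA' s hh).1.ne rfl, fun hh => hn (hB' s hh).1.symm⟩),
      card_insert_of_notMem (by
        simp only [mem_union, not_or]
        exact ⟨fun hh => hn (hA' s' hh).1, fun hh => (hB' s' hh).1.ne rfl⟩),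
      card_union_of_disjoint hd] at h5
    push_cast at h5
    linarith
  refine ⟨?_, fun y hy => ?_⟩
  · intro x y hx hy hxy
    by_cases h1 : H.Adj s' x
    · exact hs' x y h1 hy hxy
    · by_cases h2 : H.Adj s y
      · exact hs x y hx h2 hxy
      · have hxA : x ∈ A := by
          rcases key x (fun z z1 z2 => hs z x z1 hx (by rintro rfl; exact h1 z2)) with
            h3 | h3 | h3 | h3
          · exact h3
          · exact absurd hx (hB' x h3).2
          · exact absurd h3.symm hx.ne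
          · exact absurd (h3 ▸ hx) hn
        have hyB : y ∈ B := by
          rcases key y (fun z z1 z2 => hs' z y z2 hy (by rintro rfl; exact h2 z1)) with
            h3 | h3 | h3 | h3
          · exact absurd hy (hA' y h3).2
          · exact h3
          · exact absurd (h3 ▸ hy).symm hn
          · exact absurd h3.symm hy.ne
        exact hAB x hxA y hyB
  · rcases key y hy with h3 | h3 | h3 | h3
    · exact Or.inl (hA' y h3).1
    · exact Or.inr (Or.inl (hB' y h3).1)
    · exact Or.inr (Or.inr (Or.inl h3))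
    · exact Or.inr (Or.inr (Or.inr h3))

theorem triple (h : Hyp H t) {s s' s'' : V} (hs : Simp H s) (hs' : Simp H s') (hs'' : Simp H s'')
    (h1 : s ≠ s') (h2 : ¬ H.Adj s s') (h3 : s ≠ s'') (h4 : ¬ H.Adj s s'') (h6 : ¬ H.Adj s' s'')
    (y : V) (hy : H.Adj s'' y) : H.Adj s y ∨ H.Adj s' y := by
  by_cases h7 : H.Adj s y
  · exact Or.inl h7
  · rcases (h.pair hs hs' h1 h2).2 y (fun x x1 _ => (h.pair hs hs'' h3 h4).1 x y x1 hy
      (by rintro rfl; exact h7 x1)) with h8 | h8 | h8 | h8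
    · exact Or.inl h8
    · exact Or.inr h8
    · exact absurd (h8 ▸ hy).symm h4
    · exact absurd (h8 ▸ hy).symm h6

theorem structure_thm (h : Hyp H t) : ∃ (K : Finset V) (p : V → V) (l : ℕ), 1 ≤ l ∧
    (∀ a ∈ K, ∀ b ∈ K, a ≠ b → H.Adj a b) ∧ (∀ a, a ∉ K → ∀ b, b ∉ K → ¬ H.Adj a b) ∧
    (∀ w ∈ K, p w ∉ K) ∧ (∀ w ∈ K, ∀ s, s ∉ K → (¬ H.Adj w s ↔ s = p w)) ∧ Kᶜ.card = 3 ∧
    ∀ s, s ∉ K → (K.filter (fun w => p w = s)).card = l := by
  have := h.nontriv
  obtain ⟨s1, -, -, hs1⟩ := h.exists_simp (Classical.arbitrary V)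
  obtain ⟨s2, h21, h12, hs2⟩ := h.exists_simp s1
  let K : Finset V := H.neighborFinset s1 ∪ H.neighborFinset s2
  have hKm : ∀ a, a ∈ K ↔ H.Adj s1 a ∨ H.Adj s2 a := fun a => by simp [K]
  have hK : ∀ a ∈ K, ∀ b ∈ K, a ≠ b → H.Adj a b := by
    intro a ha b hb hab
    rcases (hKm a).1 ha with a1 | a1 <;> rcases (hKm b).1 hb with b1 | b1
    · exact hs1 a b a1 b1 hab
    · exact (h.pair hs1 hs2 h21.symm h12).1 a b a1 b1 hab
    · exact ((h.pair hs1 hs2 h21.symm h12).1 b a b1 a1 hab.symm).symm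
    · exact hs2 a b a1 b1 hab
  have hs1K : s1 ∉ K := by
    rw [hKm]; rintro (hh | hh)
    · exact hh.ne rfl
    · exact h12 hh.symm
  have hs2K : s2 ∉ K := by
    rw [hKm]; rintro (hh | hh)
    · exact h12 hh
    · exact hh.ne rfl
  have hsplit : ∀ v, v ∉ K → ∀ u, H.Adj v u → u ∈ K := by
    refine h.chordal.split_of_simp K hK ?_
    intro s hsK hs u hu
    rw [hKm] at hsK ⊢
    push Not at hsK
    by_cases e1 : s1 = s
    · exact Or.inl (e1 ▸ hu)
    · exact h.triple hs1 hs2 hs h21.symm h12 e1 hsK.1 hsK.2 u hu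
  have hind : ∀ a, a ∉ K → ∀ b, b ∉ K → ¬ H.Adj a b := fun a ha b hb hab => hb (hsplit a ha b hab)
  have hsimp : ∀ v, v ∉ K → Simp H v := fun v hv c d h3 h4 hcd =>
    hK c (hsplit v hv c h3) d (hsplit v hv d h4) hcd
  have huniq : ∀ w ∈ K, ∀ s s', s ∉ K → s' ∉ K → ¬ H.Adj w s → ¬ H.Adj w s' → s = s' := by
    intro w hw s s' hs hs' n1 n2
    by_contra hne
    have aux : ∀ r, r ∉ K → H.Adj r w → False := by
      intro r hr hrw
      rcases h.triple (hsimp s hs) (hsimp s' hs') (hsimp r hr) hne (hind s hs s' hs')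
        (by rintro rfl; exact n1 hrw.symm) (hind s hs r hr) (hind s' hs' r hr) w hrw with h1 | h1
      · exact n1 h1.symm
      · exact n2 h1.symm
    rcases (hKm w).1 hw with h1 | h1
    · exact aux s1 hs1K h1
    · exact aux s2 hs2K h1
  choose p hp1 hp2 using h.exists_nonadj
  have hpK : ∀ w ∈ K, p w ∉ K := fun w hw hh => hp2 w (hK w hw _ hh (hp1 w).symm)
  have hp : ∀ w ∈ K, ∀ s, s ∉ K → (¬ H.Adj w s ↔ s = p w) := fun w hw s hs =>
    ⟨fun hn => huniq w hw s _ hs (hpK w hw) hn (hp2 w), fun e => e ▸ hp2 w⟩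
  let F : V → Finset V := fun s => K.filter (fun w => p w = s)
  obtain ⟨sm, hsm, hmax⟩ := exists_max_image Kᶜ (fun s => (F s).card) ⟨s1, mem_compl.2 hs1K⟩
  have hsmK : sm ∉ K := mem_compl.1 hsm
  obtain ⟨w0, hw1, hw2⟩ := h.d2 s1 s2 h21.symm h12
  have hw0K : w0 ∈ K := (hKm w0).2 (Or.inl hw1)
  have hl : 1 ≤ (F sm).card := by
    refine le_trans ?_ (hmax (p w0) (mem_compl.2 (hpK w0 hw0K)))
    exact card_pos.2 ⟨w0, mem_filter.2 ⟨hw0K, rfl⟩⟩
  have hcardV : K.card + Kᶜ.card = Fintype.card V := card_add_card_compl K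
  have ht : t * ((F sm).card + 1) ≤ 1 := by
    have hne : ∃ r, r ∉ K ∧ r ≠ sm := by
      by_cases e : s1 = sm
      · exact ⟨s2, hs2K, e ▸ h21⟩
      · exact ⟨s1, hs1K, e⟩
    obtain ⟨r, hr, hrs⟩ := hne
    have h1 := h.t1 (F sm) ((univ.erase sm) \ F sm) (card_pos.1 hl)
      ⟨r, mem_sdiff.2 ⟨mem_erase.2 ⟨hrs, mem_univ _⟩, fun hh => hr (mem_filter.1 hh).1⟩⟩
      disjoint_sdiff (fun a ha b hb hab => hK a (mem_filter.1 ha).1 b (mem_filter.1 hb).1 hab)
      (by
        intro a ha b hb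
        obtain ⟨a1, a2⟩ := mem_filter.1 ha
        obtain ⟨b1, b2⟩ := mem_sdiff.1 hb
        by_cases hbK : b ∈ K
        · exact hK a a1 b hbK (by rintro rfl; exact b2 ha)
        · by_contra hn
          exact (mem_erase.1 b1).1 (((hp a a1 b hbK).1 hn).trans a2))
    have h3 : F sm ⊆ univ.erase sm := fun a ha =>
      mem_erase.2 ⟨by rintro rfl; exact hsmK (mem_filter.1 ha).1, mem_univ _⟩
    have h4 := card_sdiff_add_card_eq_card h3
    rw [card_erase_of_mem (mem_univ sm), card_univ] at h4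
    have h5 : 1 ≤ Fintype.card V := Fintype.card_pos_iff.2 ⟨sm⟩
    have h6 : Fintype.card V = ((univ.erase sm) \ F sm).card + (F sm).card + 1 := by omega
    rw [h6] at h1
    push_cast at h1
    linarith
  have hpair : ∀ s s', s ∉ K → s' ∉ K → s ≠ s' →
      ((Kᶜ.card : ℝ) - 2) * ((F sm).card + 1) <
        (∑ r ∈ (Kᶜ.erase s).erase s', (F r).card : ℕ) + 2 := by
    intro s s' hs hs' hne
    obtain ⟨A, B, hA, hB, -, hlt⟩ := h.star s s' (hsimp s hs) (hsimp s' hs') hne (hind s hs s' hs')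
    have hA' : ∀ a ∈ A, H.Adj s a ∧ ¬ H.Adj s' a := fun a ha => by simpa using hA ha
    have hB' : ∀ a ∈ B, H.Adj s' a ∧ ¬ H.Adj s a := fun a ha => by simpa using hB ha
    set Z := H.neighborFinset s ∩ H.neighborFinset s' with hZ
    have hZ' : ∀ a ∈ Z, H.Adj s a ∧ H.Adj s' a := fun a ha => by simpa [hZ] using ha
    have h1 : Z.card + A.card + B.card ≤ K.card := by
      rw [← card_union_of_disjoint, ← card_union_of_disjoint]
      · apply card_le_card
        intro a ha
        simp only [mem_union] at ha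
        rcases ha with (h2 | h2) | h2
        · exact hsplit s hs a (hZ' a h2).1
        · exact hsplit s hs a (hA' a h2).1
        · exact hsplit s' hs' a (hB' a h2).1
      · rw [disjoint_left]
        intro a ha hb
        rcases mem_union.1 ha with h2 | h2
        · exact (hB' a hb).2 (hZ' a h2).1
        · exact (hB' a hb).2 (hA' a h2).1
      · rw [disjoint_left]
        intro a ha hb
        exact (hA' a hb).2 (hZ' a ha).2
    have h2 : Z.card ≤ ∑ r ∈ (Kᶜ.erase s).erase s', (F r).card := by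
      refine le_trans (card_le_card ?_) card_biUnion_le
      intro a ha
      have haK : a ∈ K := hsplit s hs a (hZ' a ha).1
      refine mem_biUnion.2 ⟨p a, mem_erase.2 ⟨?_, mem_erase.2 ⟨?_, mem_compl.2 (hpK a haK)⟩⟩,
        mem_filter.2 ⟨haK, rfl⟩⟩
      · intro e
        exact hp2 a (e ▸ (hZ' a ha).2.symm)
      · intro e
        exact hp2 a (e ▸ (hZ' a ha).1.symm)
    rw [← hcardV] at hlt
    have h3 : (Z.card : ℝ) + A.card + B.card ≤ K.card := by exact_mod_cast h1
    have h4 : (Z.card : ℝ) ≤ (∑ r ∈ (Kᶜ.erase s).erase s', (F r).card : ℕ) := by exact_mod_cast h2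
    push_cast at hlt
    have h5 : (Kᶜ.card : ℝ) - 2 < t * (Z.card + 2) := by linarith
    have h6 : (0 : ℝ) < (F sm).card + 1 := by positivity
    have h7 : (0 : ℝ) ≤ Z.card + 2 := by positivity
    calc ((Kᶜ.card : ℝ) - 2) * ((F sm).card + 1) < t * (Z.card + 2) * ((F sm).card + 1) :=
          mul_lt_mul_of_pos_right h5 h6
      _ = t * ((F sm).card + 1) * (Z.card + 2) := by ring
      _ ≤ 1 * (Z.card + 2) := mul_le_mul_of_nonneg_right ht h7
      _ ≤ _ := by linarith
  have hk3 : 3 ≤ Kᶜ.card := by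
    have h1 : ({s1, s2, p w0} : Finset V) ⊆ Kᶜ := by
      intro a ha
      simp only [mem_insert, mem_singleton] at ha
      rcases ha with rfl | rfl | rfl
      · exact mem_compl.2 hs1K
      · exact mem_compl.2 hs2K
      · exact mem_compl.2 (hpK w0 hw0K)
    have h2 := card_le_card h1
    rwa [card_eq_three.2 ⟨s1, s2, p w0, h21.symm, fun e => hp2 w0 (e ▸ hw1.symm),
      fun e => hp2 w0 (e ▸ hw2.symm), rfl⟩] at h2
  have hk : Kᶜ.card = 3 := by
    have h1 := hpair s1 s2 hs1K hs2K h21.symm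
    have h2 : ∑ r ∈ (Kᶜ.erase s1).erase s2, (F r).card ≤
        ((Kᶜ.erase s1).erase s2).card • (F sm).card :=
      sum_le_card_nsmul _ _ _ (fun r hr => hmax r (mem_of_mem_erase (mem_of_mem_erase hr)))
    rw [card_erase_of_mem (mem_erase.2 ⟨h21, mem_compl.2 hs2K⟩),
      card_erase_of_mem (mem_compl.2 hs1K), smul_eq_mul] at h2
    obtain ⟨k, hk⟩ : ∃ k, Kᶜ.card = k + 2 := ⟨Kᶜ.card - 2, by omega⟩
    rw [hk] at h1 h2
    have h3 : ((∑ r ∈ (Kᶜ.erase s1).erase s2, (F r).card : ℕ) : ℝ) ≤ k * (F sm).card := by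
      exact_mod_cast (by simpa using h2)
    push_cast at h1 h3
    have h4 : (k : ℝ) < 2 := by nlinarith
    have h5 : k < 2 := by exact_mod_cast h4
    omega
  refine ⟨K, p, (F sm).card, hl, hK, hind, hpK, hp, hk, fun s hs => ?_⟩
  have hsc : s ∈ Kᶜ := mem_compl.2 hs
  have h1 : (Kᶜ.erase s).card = 2 := by rw [card_erase_of_mem hsc, hk]
  obtain ⟨a, b, hab, e⟩ := card_eq_two.1 h1
  have ha : a ∈ Kᶜ.erase s := by rw [e]; simp
  have hb : b ∈ Kᶜ.erase s := by rw [e]; simp
  have h2 := hpair a b (mem_compl.1 (mem_of_mem_erase ha)) (mem_compl.1 (mem_of_mem_erase hb)) hab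
  have h3 : (Kᶜ.erase a).erase b = {s} := by
    ext r
    simp only [mem_erase, mem_singleton]
    constructor
    · rintro ⟨r1, r2, r3⟩
      by_contra r4
      have : r ∈ Kᶜ.erase s := mem_erase.2 ⟨r4, r3⟩
      rw [e] at this
      simp [r1, r2] at this
    · rintro rfl
      exact ⟨(mem_erase.1 hb).1.symm, (mem_erase.1 ha).1.symm, hsc⟩
  rw [h3, sum_singleton, hk] at h2
  have h4 : (F sm).card < (F s).card + 1 := by
    have : ((F sm).card : ℝ) < (F s).card + 1 := by push_cast at h2; linarith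
    exact_mod_cast this
  have h5 := hmax s hsc
  change (F s).card = _
  omega

end Hyp

/-- The structure theorem gives the isomorphism with the three-star graph. -/
theorem iso_of_structure (G : SimpleGraph V) (K : Finset V) (p : V → V) (l : ℕ)
    (h1 : ∀ a ∈ K, ∀ b ∈ K, ¬ G.Adj a b) (h2 : ∀ a, a ∉ K → ∀ b, b ∉ K → a ≠ b → G.Adj a b)
    (h3 : ∀ w ∈ K, p w ∉ K) (h4 : ∀ w ∈ K, ∀ s, s ∉ K → (G.Adj w s ↔ s = p w))
    (h5 : Kᶜ.card = 3) (h6 : ∀ s, s ∉ K → (K.filter (fun w => p w = s)).card = l) :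
    Nonempty (G ≃g triStar l) := by
  let e : (Kᶜ : Finset V) ≃ Fin 3 := Finset.equivFinOfCardEq h5
  let c : Fin 3 → V := fun i => (e.symm i).1
  have hc : ∀ i, c i ∉ K := fun i => mem_compl.1 (e.symm i).2
  have hcinj : Function.Injective c := fun i j hij => e.symm.injective (Subtype.ext hij)
  have hcsurj : ∀ s, s ∉ K → ∃ i, c i = s := fun s hs =>
    ⟨e ⟨s, mem_compl.2 hs⟩, by simp [c]⟩
  let g : ∀ i : Fin 3, (K.filter (fun w => p w = c i)) ≃ Fin l := fun i =>
    Finset.equivFinOfCardEq (h6 _ (hc i))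
  let d : Fin 3 → Fin l → V := fun i j => ((g i).symm j).1
  have hd1 : ∀ i j, d i j ∈ K := fun i j => (mem_filter.1 ((g i).symm j).2).1
  have hd2 : ∀ i j, p (d i j) = c i := fun i j => (mem_filter.1 ((g i).symm j).2).2
  let f : Fin 3 × Option (Fin l) → V := fun x => match x.2 with
    | none => c x.1
    | some j => d x.1 j
  have hf : Function.Bijective f := by
    constructor
    · rintro ⟨i, _ | j⟩ ⟨i', _ | j'⟩ hh
      · rw [hcinj (show c i = c i' from hh)]
      · exact absurd (show c i ∈ K from (show c i = d i' j' from hh) ▸ hd1 i' j') (hc i)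
      · exact absurd (show c i' ∈ K from (show d i j = c i' from hh) ▸ hd1 i j) (hc i')
      · have hh' : d i j = d i' j' := hh
        have e1 : i = i' := hcinj (by rw [← hd2 i j, hh', hd2])
        subst e1
        rw [(g i).symm.injective (Subtype.ext hh')]
    · intro v
      by_cases hv : v ∈ K
      · obtain ⟨i, hi⟩ := hcsurj _ (h3 v hv)
        exact ⟨(i, some (g i ⟨v, mem_filter.2 ⟨hv, hi.symm⟩⟩)), by simp [f, d]⟩
      · obtain ⟨i, hi⟩ := hcsurj v hv
        exact ⟨(i, none), hi⟩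
  refine ⟨SimpleGraph.Iso.symm ⟨Equiv.ofBijective f hf, ?_⟩⟩
  rintro ⟨i, _ | j⟩ ⟨i', _ | j'⟩
  · simp only [Equiv.ofBijective_apply, f, triStar, SimpleGraph.fromRel_adj]
    constructor
    · intro ha
      refine ⟨?_, by simp⟩
      intro e1
      exact ha.ne (by rw [(Prod.mk.inj e1).1])
    · rintro ⟨ha, -⟩
      exact h2 _ (hc i) _ (hc i') (fun e1 => ha (by rw [hcinj e1]))
  · simp only [Equiv.ofBijective_apply, f, triStar, SimpleGraph.fromRel_adj]
    rw [G.adj_comm, h4 _ (hd1 i' j') _ (hc i), hd2, hcinj.eq_iff]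
    simp
  · simp only [Equiv.ofBijective_apply, f, triStar, SimpleGraph.fromRel_adj]
    rw [h4 _ (hd1 i j) _ (hc i'), hd2, hcinj.eq_iff]
    simp
  · simp only [Equiv.ofBijective_apply, f, triStar, SimpleGraph.fromRel_adj]
    simp [h1 _ (hd1 i j) _ (hd1 i' j')]

end Pool.Agent.Lib.MP_c98209_co
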