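import Pool.Agent.Lib.MP_c98209_co.Small

/-!
Counting components and the two directions of the classification.
-/

set_option autoImplicit false

namespace Pool.Agent.Lib.MP_c98209_co

open Finset
open scoped ENNReal

variable {V : Type}

/-- Reachability avoiding S. -/
def Rch (G : SimpleGraph V) (S : Finset V) (a b : V) : Prop :=
  Relation.ReflTransGen (fun x y => x ∉ S ∧ y ∉ S ∧ G.Adj x y) a b

theorem Rch.symm {G : SimpleGraph V} {S : Finset V} {a b : V} (h : Rch G S a b) : Rch G S b a := by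
  unfold Rch at h ⊢
  induction h with
  | refl => exact Relation.ReflTransGen.refl
  | tail _ h2 ih => exact Relation.ReflTransGen.head ⟨h2.2.1, h2.1, h2.2.2.symm⟩ ih

theorem Rch.step {G : SimpleGraph V} {S : Finset V} {a b : V} (ha : a ∉ S) (hb : b ∉ S)
    (h : G.Adj a b) : Rch G S a b := Relation.ReflTransGen.single ⟨ha, hb, h⟩

theorem Rch.reachable {G : SimpleGraph V} {S : Finset V} {a b : V} (h : Rch G S a b)
    (ha : a ∈ ((S : Set V)ᶜ)) : ∃ hb : b ∈ ((S : Set V)ᶜ),
      (G.induce ((S : Set V)ᶜ)).Reachable ⟨a, ha⟩ ⟨b, hb⟩ := by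
  unfold Rch at h
  induction h with
  | refl => exact ⟨ha, SimpleGraph.Reachable.refl _⟩
  | @tail b c _ h2 ih =>
    obtain ⟨hb, hr⟩ := ih
    have hc : c ∈ ((S : Set V)ᶜ) := by simpa using h2.2.1
    exact ⟨hc, hr.trans (SimpleGraph.Adj.reachable (by simpa using h2.2.2))⟩

theorem numComp_le (G : SimpleGraph V) (S J : Finset V) (h : ∀ v, v ∉ S → ∃ j ∈ J, Rch G S v j) :
    numComp G S ≤ J.card := by
  classical
  let J' := J.filter (fun j => j ∉ S)
  have h1 : J'.card ≤ J.card := card_filter_le _ _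
  refine le_trans ?_ h1
  rw [← Nat.card_eq_finsetCard]
  refine Nat.card_le_card_of_surjective (fun j : J' =>
    (G.induce ((S : Set V)ᶜ)).connectedComponentMk ⟨j.1, by simpa using (mem_filter.1 j.2).2⟩) ?_
  intro C
  induction C using SimpleGraph.ConnectedComponent.ind with
  | h v =>
    obtain ⟨j, hj, hr⟩ := h v.1 (fun hh => v.2 (mem_coe.2 hh))
    obtain ⟨hb, hr'⟩ := hr.reachable v.2
    exact ⟨⟨j, mem_filter.2 ⟨hj, by simpa using hb⟩⟩,
      SimpleGraph.ConnectedComponent.sound hr'.symm⟩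

theorem const_of_reachable {β : Type} (G : SimpleGraph V) (S : Finset V)
    (φ : ((S : Set V)ᶜ : Set V) → β)
    (hφ : ∀ a b : ((S : Set V)ᶜ : Set V), G.Adj a.1 b.1 → φ a = φ b)
    {a b : ((S : Set V)ᶜ : Set V)} (h : (G.induce ((S : Set V)ᶜ)).Reachable a b) : φ a = φ b := by
  rw [SimpleGraph.reachable_iff_reflTransGen] at h
  induction h with
  | refl => rfl
  | tail _ h2 ih => exact ih.trans (hφ _ _ (by simpa using h2))

theorem numComp_ge [Finite V] {β : Type} (G : SimpleGraph V) (S J : Finset V) (φ : V → β)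
    (hφ : ∀ a b, a ∉ S → b ∉ S → G.Adj a b → φ a = φ b) (hJ : ∀ j ∈ J, j ∉ S)
    (hinj : ∀ a ∈ J, ∀ b ∈ J, φ a = φ b → a = b) : J.card ≤ numComp G S := by
  rw [← Nat.card_eq_finsetCard]
  refine Nat.card_le_card_of_injective (fun j : J =>
    (G.induce ((S : Set V)ᶜ)).connectedComponentMk ⟨j.1, by simpa using hJ j.1 j.2⟩) ?_
  intro a b hab
  have h1 := const_of_reachable G S (fun v => φ v.1)
    (fun a b h => hφ _ _ (fun hh => a.2 (mem_coe.2 hh)) (fun hh => b.2 (mem_coe.2 hh)) h)
    (SimpleGraph.ConnectedComponent.exact hab)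
  exact Subtype.ext (hinj _ a.2 _ b.2 h1)

theorem numComp_mono [Finite V] (G G' : SimpleGraph V) (S : Finset V)
    (h : ∀ a b, a ∉ S → b ∉ S → G.Adj a b → Rch G' S a b) : numComp G' S ≤ numComp G S := by
  refine Nat.card_le_card_of_surjective
    (Quot.lift (fun v => (G'.induce ((S : Set V)ᶜ)).connectedComponentMk v) (fun a b hab =>
      const_of_reachable G S _ (fun a b hab => by
        obtain ⟨_, hr⟩ := (h a.1 b.1 (fun hh => a.2 (mem_coe.2 hh)) (fun hh => b.2 (mem_coe.2 hh)) hab).reachable a.2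
        exact SimpleGraph.ConnectedComponent.sound hr) hab) :
      (G.induce ((S : Set V)ᶜ)).ConnectedComponent → _) ?_
  intro C
  induction C using SimpleGraph.ConnectedComponent.ind with
  | h v => exact ⟨(G.induce ((S : Set V)ᶜ)).connectedComponentMk v, rfl⟩

theorem toughness_le (G : SimpleGraph V) (S : Finset V) (h : 2 ≤ numComp G S) :
    toughness G ≤ (S.card : ℝ≥0∞) / (numComp G S : ℝ≥0∞) :=
  iInf₂_le (f := fun (S : Finset V) (_ : 2 ≤ numComp G S) =>
    (S.card : ℝ≥0∞) / (numComp G S : ℝ≥0∞)) S h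

theorem toReal_mul_le (G : SimpleGraph V) (S : Finset V) (h : 2 ≤ numComp G S) :
    toughness G ≠ ⊤ ∧ (toughness G).toReal * numComp G S ≤ S.card := by
  have h1 := toughness_le G S h
  have h0 : (numComp G S : ℝ≥0∞) ≠ 0 := by
    rw [Nat.cast_ne_zero]; omega
  have h2 : (S.card : ℝ≥0∞) / (numComp G S : ℝ≥0∞) ≠ ⊤ :=
    ENNReal.div_ne_top (ENNReal.natCast_ne_top _) h0
  refine ⟨ne_top_of_le_ne_top h2 h1, ?_⟩
  have h3 := ENNReal.toReal_mono h2 h1
  rw [ENNReal.toReal_div, ENNReal.toReal_natCast, ENNReal.toReal_natCast,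
    le_div_iff₀ (by exact_mod_cast (by omega : 0 < numComp G S))] at h3
  exact h3

theorem exists_of_lt (G : SimpleGraph V) {t : ℝ≥0∞} (ht : t ≠ ⊤) (h : toughness G < t) :
    ∃ S : Finset V, 2 ≤ numComp G S ∧ (S.card : ℝ) < t.toReal * numComp G S := by
  unfold toughness at h
  obtain ⟨S, hS⟩ := iInf_lt_iff.1 h
  obtain ⟨h2, hS⟩ := iInf_lt_iff.1 hS
  refine ⟨S, h2, ?_⟩
  have h3 := ENNReal.toReal_strict_mono ht hS
  rw [ENNReal.toReal_div, ENNReal.toReal_natCast, ENNReal.toReal_natCast,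
    div_lt_iff₀ (by exact_mod_cast (by omega : 0 < numComp G S))] at h3
  exact h3

theorem hyp_of_minTough [Fintype V] [DecidableEq V] (G : SimpleGraph V) [DecidableRel Gᶜ.Adj]
    (hc : Chordal Gᶜ) (hd : Gᶜ.ediam = 2) (hbot : G ≠ ⊥) (hm : MinimallyTough G) :
    Hyp Gᶜ (toughness G).toReal := by
  have hd2 : ∀ u v, u ≠ v → ¬ Gᶜ.Adj u v → ∃ w, Gᶜ.Adj u w ∧ Gᶜ.Adj v w := by
    intro u v huv hn
    have h1 : Gᶜ.edist u v ≤ 2 := hd ▸ SimpleGraph.edist_le_ediam
    by_contra hcon
    refine absurd (SimpleGraph.two_lt_edist_iff.2 ⟨huv, hn, ?_⟩) (not_lt.2 h1)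
    exact Set.eq_empty_of_forall_notMem (fun w hw => hcon ⟨w, hw⟩)
  have hadj : ∀ a b, G.Adj a b ↔ a ≠ b ∧ ¬ Gᶜ.Adj a b := by
    intro a b
    rw [SimpleGraph.compl_adj]
    constructor
    · intro h; exact ⟨h.ne, fun h' => h'.2 h⟩
    · rintro ⟨h1, h2⟩
      by_contra h3
      exact h2 ⟨h1, h3⟩
  have hq : ∀ Q : Finset V, (∀ a ∈ Q, ∀ b ∈ Q, a ≠ b → Gᶜ.Adj a b) → Q.card ≤ numComp G Qᶜ := by
    intro Q hQ
    refine numComp_ge G Qᶜ Q id ?_ (by simp) (fun _ _ _ _ h => h)
    intro a b ha hb hab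
    exact absurd (hQ a (by simpa using ha) b (by simpa using hb) hab.ne) ((hadj a b).1 hab).2
  obtain ⟨u0, v0, huv0⟩ := SimpleGraph.ne_bot_iff_exists_adj.1 hbot
  have htop : toughness G ≠ ⊤ := by
    obtain ⟨w, h1, -⟩ := hd2 u0 v0 huv0.ne ((hadj _ _).1 huv0).2
    refine (toReal_mul_le G ({u0, w} : Finset V)ᶜ (le_trans ?_ (hq _ ?_))).1
    · rw [card_pair h1.ne]
    · intro a ha b hb hab
      simp only [mem_insert, mem_singleton] at ha hb
      rcases ha with rfl | rfl <;> rcases hb with rfl | rfl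
      · exact absurd rfl hab
      · exact h1
      · exact h1.symm
      · exact absurd rfl hab
  have ht0 : 0 ≤ (toughness G).toReal := ENNReal.toReal_nonneg
  refine ⟨hc, ?_, ⟨⟨u0, v0, huv0.ne⟩⟩, hd2, ?_, ?_, ?_⟩
  · exact ENNReal.toReal_pos (ne_zero_of_lt (hm s(u0, v0) huv0)) htop
  · intro I U hI hU hIU h1 h2
    obtain ⟨u, hu⟩ := hU
    have huI : u ∉ I := fun hh => disjoint_left.1 hIU hh hu
    have h3 : (insert u I).card ≤ numComp G (I ∪ U)ᶜ := by
      refine numComp_ge G (I ∪ U)ᶜ (insert u I) (fun v => if v ∈ I then some v else none) ?_ ?_ ?_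
      · have aux : ∀ a b, b ∉ (I ∪ U)ᶜ → G.Adj a b → a ∉ I := by
          intro a b hb hab ha
          rcases mem_union.1 (notMem_compl.1 hb) with h4 | h4
          · exact ((hadj a b).1 hab).2 (h1 a ha b h4 hab.ne)
          · exact ((hadj a b).1 hab).2 (h2 a ha b h4)
        intro a b ha hb hab
        simp only [aux a b hb hab, aux b a ha hab.symm, if_false]
      · intro j hj
        rcases mem_insert.1 hj with rfl | h4
        · simp [hu]
        · simp [h4]
      · intro a ha b hb hab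
        rcases mem_insert.1 ha with rfl | h4 <;> rcases mem_insert.1 hb with rfl | h5
        · rfl
        · simp [huI, h5] at hab
        · simp [huI, h4] at hab
        · simpa [h4, h5] using hab
    rw [card_insert_of_notMem huI] at h3
    have h4 := (toReal_mul_le G (I ∪ U)ᶜ (by have := card_pos.2 hI; omega)).2
    have h5 := card_add_card_compl (I ∪ U)
    rw [card_union_of_disjoint hIU] at h5
    rw [← h5]
    have h6 : ((I.card : ℝ) + 1) ≤ numComp G (I ∪ U)ᶜ := by exact_mod_cast h3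
    push_cast
    nlinarith
  · intro Q hQ2 hQ
    have h3 := hq Q hQ
    have h4 := (toReal_mul_le G Qᶜ (by omega)).2
    have h5 := card_add_card_compl Q
    rw [← h5]
    have h6 : (Q.card : ℝ) ≤ numComp G Qᶜ := by exact_mod_cast h3
    push_cast
    nlinarith
  · intro s s' hs hs' hne hn
    have hss : G.Adj s s' := (hadj _ _).2 ⟨hne, hn⟩
    obtain ⟨S, hS2, hS⟩ := exists_of_lt _ htop (hm s(s, s') hss)
    set G' := G.deleteEdges {s(s, s')} with hG'
    have hG'adj : ∀ a b, G'.Adj a b ↔ G.Adj a b ∧ s(a, b) ≠ s(s, s') := by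
      intro a b
      simp [hG']
    have hkey : s ∉ S ∧ s' ∉ S ∧ ¬ Rch G' S s s' := by
      by_contra hcon
      have h1 : numComp G' S ≤ numComp G S := by
        refine numComp_mono G G' S (fun a b ha hb hab => ?_)
        by_cases h2 : s(a, b) = s(s, s')
        · rcases Sym2.eq_iff.1 h2 with ⟨rfl, rfl⟩ | ⟨rfl, rfl⟩
          · by_contra h3
            exact hcon ⟨ha, hb, h3⟩
          · by_contra h3
            exact hcon ⟨hb, ha, fun h4 => h3 h4.symm⟩
        · exact Rch.step ha hb ((hG'adj a b).2 ⟨hab, h2⟩)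
      have h2 := (toReal_mul_le G S (hS2.trans h1)).2
      have h3 : (numComp G' S : ℝ) ≤ numComp G S := by exact_mod_cast h1
      nlinarith
    obtain ⟨hsS, hs'S, hnr⟩ := hkey
    have e1 : ∀ v, v ∉ S → v ≠ s → v ≠ s' → ¬ Gᶜ.Adj s v → Rch G' S s v := by
      intro v hv h1 h2 h3
      refine Rch.step hsS hv ((hG'adj _ _).2 ⟨(hadj _ _).2 ⟨h1.symm, h3⟩, ?_⟩)
      intro h4
      rcases Sym2.eq_iff.1 h4 with ⟨-, h5⟩ | ⟨h5, -⟩
      · exact h2 h5
      · exact hne h5
    have e2 : ∀ v, v ∉ S → v ≠ s → v ≠ s' → ¬ Gᶜ.Adj s' v → Rch G' S s' v := by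
      intro v hv h1 h2 h3
      refine Rch.step hs'S hv ((hG'adj _ _).2 ⟨(hadj _ _).2 ⟨h2.symm, h3⟩, ?_⟩)
      intro h4
      rcases Sym2.eq_iff.1 h4 with ⟨h5, -⟩ | ⟨-, h5⟩
      · exact hne h5.symm
      · exact h1 h5
    let Z := Gᶜ.neighborFinset s ∩ Gᶜ.neighborFinset s'
    let A := (Gᶜ.neighborFinset s \ Gᶜ.neighborFinset s').filter (fun v => v ∉ S)
    let B := (Gᶜ.neighborFinset s' \ Gᶜ.neighborFinset s).filter (fun v => v ∉ S)
    have hAm : ∀ a, a ∈ A ↔ (Gᶜ.Adj s a ∧ ¬ Gᶜ.Adj s' a) ∧ a ∉ S := fun a => by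
      simp only [A, mem_filter, mem_sdiff, SimpleGraph.mem_neighborFinset]
    have hBm : ∀ a, a ∈ B ↔ (Gᶜ.Adj s' a ∧ ¬ Gᶜ.Adj s a) ∧ a ∉ S := fun a => by
      simp only [B, mem_filter, mem_sdiff, SimpleGraph.mem_neighborFinset]
    have hZm : ∀ a, a ∈ Z ↔ Gᶜ.Adj s a ∧ Gᶜ.Adj s' a := fun a => by
      simp only [Z, mem_inter, SimpleGraph.mem_neighborFinset]
    refine ⟨A, B, filter_subset _ _, filter_subset _ _, ?_, ?_⟩
    · intro a ha b hb
      obtain ⟨⟨a1, a2⟩, a3⟩ := (hAm a).1 ha
      obtain ⟨⟨b1, b2⟩, b3⟩ := (hBm b).1 hb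
      by_contra hab
      have a4 : a ≠ s' := by rintro rfl; exact hn a1
      have b4 : b ≠ s := by rintro rfl; exact hn b1.symm
      have r1 := e1 b b3 b4 b1.ne' b2
      have r2 := e2 a a3 a1.ne' a4 a2
      have r3 : Rch G' S b a := by
        refine Rch.step b3 a3 ((hG'adj _ _).2 ⟨(hadj _ _).2 ⟨?_, fun hh => hab hh.symm⟩, ?_⟩)
        · rintro rfl; exact b2 a1
        · intro h4
          rcases Sym2.eq_iff.1 h4 with ⟨h5, -⟩ | ⟨h5, -⟩
          · exact b4 h5
          · exact b1.ne' h5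
      exact hnr ((r1.trans r3).trans r2.symm)
    · have h1 : numComp G' S ≤ (insert s (insert s' Z)).card := by
        refine numComp_le G' S _ (fun v hv => ?_)
        by_cases c1 : v = s
        · exact ⟨v, by simp [c1], Relation.ReflTransGen.refl⟩
        by_cases c2 : v = s'
        · exact ⟨v, by simp [c2], Relation.ReflTransGen.refl⟩
        by_cases c3 : Gᶜ.Adj s v
        · by_cases c4 : Gᶜ.Adj s' v
          · exact ⟨v, mem_insert_of_mem (mem_insert_of_mem ((hZm v).2 ⟨c3, c4⟩)),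
              Relation.ReflTransGen.refl⟩
          · exact ⟨s', by simp, (e2 v hv c1 c2 c4).symm⟩
        · exact ⟨s, by simp, (e1 v hv c1 c2 c3).symm⟩
      have h2 : (insert s (insert s' Z)).card ≤ Z.card + 2 :=
        (card_insert_le _ _).trans (Nat.succ_le_succ (card_insert_le _ _))
      have h3 : Sᶜ ⊆ insert s (insert s' Z) ∪ A ∪ B := by
        intro v hv
        have hv' : v ∉ S := mem_compl.1 hv
        by_cases c1 : v = s
        · simp [c1]
        by_cases c2 : v = s'
        · simp [c2]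
        by_cases c3 : Gᶜ.Adj s v
        · by_cases c4 : Gᶜ.Adj s' v
          · exact mem_union_left _ (mem_union_left _
              (mem_insert_of_mem (mem_insert_of_mem ((hZm v).2 ⟨c3, c4⟩))))
          · exact mem_union_left _ (mem_union_right _ ((hAm v).2 ⟨⟨c3, c4⟩, hv'⟩))
        · by_cases c4 : Gᶜ.Adj s' v
          · exact mem_union_right _ ((hBm v).2 ⟨⟨c4, c3⟩, hv'⟩)
          · exact absurd ((e1 v hv' c1 c2 c3).trans (e2 v hv' c1 c2 c4).symm) hnr
      have h4 : Sᶜ.card ≤ Z.card + 2 + A.card + B.card :=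
        (card_le_card h3).trans ((card_union_le _ _).trans (Nat.add_le_add_right
          ((card_union_le _ _).trans (Nat.add_le_add_right h2 _)) _))
      have h5 := card_add_card_compl S
      rw [← h5]
      have h6 : (numComp G' S : ℝ) ≤ Z.card + 2 := by exact_mod_cast h1.trans h2
      have h7 : (Sᶜ.card : ℝ) ≤ Z.card + 2 + A.card + B.card := by exact_mod_cast h4
      push_cast
      change _ < _ * ((Z.card : ℝ) + 2) + Z.card + 2 + A.card + B.card
      nlinarith

theorem iso_of_minTough [Finite V] (G : SimpleGraph V)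
    (hc : Chordal Gᶜ) (hd : Gᶜ.ediam = 2) (hbot : G ≠ ⊥) (hm : MinimallyTough G) :
    ∃ l, 1 ≤ l ∧ Nonempty (G ≃g triStar l) := by
  classical
  have := Fintype.ofFinite V
  obtain ⟨K, p, l, hl, h1, h2, h3, h4, h5, h6⟩ := (hyp_of_minTough G hc hd hbot hm).structure_thm
  refine ⟨l, hl, iso_of_structure G K p l ?_ ?_ h3 ?_ h5 h6⟩
  · intro a ha b hb hab
    exact ((SimpleGraph.compl_adj _ _ _).1 (h1 a ha b hb hab.ne)).2 hab
  · intro a ha b hb hab
    by_contra hn
    exact h2 a ha b hb ((SimpleGraph.compl_adj _ _ _).2 ⟨hab, hn⟩)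
  · intro w hw s hs
    rw [← h4 w hw s hs, SimpleGraph.compl_adj]
    have : w ≠ s := by rintro rfl; exact hs hw
    tauto

theorem minTough_of_iso [Finite V] (G : SimpleGraph V) (l : ℕ) (hl : 1 ≤ l)
    (φ : G ≃g triStar l) : G ≠ ⊤ ∧ G ≠ ⊥ ∧ MinimallyTough G := by
  classical
  have := Fintype.ofFinite V
  have hadj : ∀ a b, G.Adj a b ↔ a ≠ b ∧
      (((φ a).2 = none ∧ ((φ b).2 = none ∨ (φ a).1 = (φ b).1)) ∨
        ((φ b).2 = none ∧ ((φ a).2 = none ∨ (φ b).1 = (φ a).1))) := by
    intro a b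
    rw [← φ.map_adj_iff]
    unfold triStar
    rw [SimpleGraph.fromRel_adj]
    simp
  let c : Fin 3 → V := fun i => φ.symm (i, none)
  let d : Fin 3 → Fin l → V := fun i j => φ.symm (i, some j)
  have hc : ∀ i, φ (c i) = (i, none) := fun i => φ.apply_symm_apply _
  have hd : ∀ i j, φ (d i j) = (i, some j) := fun i j => φ.apply_symm_apply _
  have hcases : ∀ v, (∃ i, v = c i) ∨ ∃ i j, v = d i j := by
    intro v
    rcases hv : φ v with ⟨i, _ | j⟩
    · exact Or.inl ⟨i, φ.injective (by rw [hc, hv])⟩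
    · exact Or.inr ⟨i, j, φ.injective (by rw [hd, hv])⟩
  have hcc : ∀ i i', c i = c i' ↔ i = i' := fun i i' => by
    rw [← φ.injective.eq_iff, hc, hc]; simp
  have hcd : ∀ i i' j, c i ≠ d i' j := fun i i' j h => by
    have := congrArg φ h
    rw [hc, hd] at this
    simp at this
  have hdd : ∀ i j i' j', d i j = d i' j' ↔ i = i' ∧ j = j' := fun i j i' j' => by
    rw [← φ.injective.eq_iff, hd, hd]; simp
  have acc : ∀ i i', G.Adj (c i) (c i') ↔ i ≠ i' := fun i i' => by
    rw [hadj, hc, hc, Ne, hcc]; simp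
  have acd : ∀ i i' j, G.Adj (c i) (d i' j) ↔ i = i' := fun i i' j => by
    rw [hadj, hc, hd]; simp [hcd]
  have add : ∀ i j i' j', ¬ G.Adj (d i j) (d i' j') := fun i j i' j' => by
    rw [hadj, hd, hd]; simp
  have hlow : ((l + 1 : ℕ) : ℝ≥0∞)⁻¹ ≤ toughness G := by
    refine le_iInf₂ (fun S hS => ?_)
    have h1 : numComp G S ≤ S.card * (l + 1) := by
      let C : Finset (Fin 3) := univ.filter (fun i => c i ∈ S)
      have hC : C.card ≤ S.card :=
        card_le_card_of_injOn c (fun i hi => (mem_filter.1 hi).2) (fun i _ j _ h => (hcc i j).1 h)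
      let J : Finset V := C.biUnion (fun i => univ.image (d i))
      have hJ : J.card ≤ C.card * l := by
        refine card_biUnion_le_card_mul _ _ _ (fun i _ => card_image_le.trans (by simp))
      have h2 : ∃ r, ∀ i, c i ∉ S → Rch G S (c i) r := by
        by_cases h3 : ∃ i0, c i0 ∉ S
        · obtain ⟨i0, hi0⟩ := h3
          refine ⟨c i0, fun i hi => ?_⟩
          by_cases h4 : i = i0
          · rw [h4]; exact Relation.ReflTransGen.refl
          · exact Rch.step hi hi0 ((acc _ _).2 h4)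
        · exact ⟨c 0, fun i hi => absurd ⟨i, hi⟩ h3⟩
      obtain ⟨r, hr⟩ := h2
      have h3 : numComp G S ≤ (insert r J).card := by
        refine numComp_le G S _ (fun v hv => ?_)
        rcases hcases v with ⟨i, rfl⟩ | ⟨i, j, rfl⟩
        · exact ⟨r, mem_insert_self _ _, hr i hv⟩
        · by_cases h4 : c i ∈ S
          · exact ⟨d i j, mem_insert_of_mem (mem_biUnion.2 ⟨i, mem_filter.2 ⟨mem_univ _, h4⟩,
              mem_image_of_mem _ (mem_univ _)⟩), Relation.ReflTransGen.refl⟩
          · exact ⟨r, mem_insert_self _ _,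
              (Rch.step hv h4 ((acd i i j).2 rfl).symm).trans (hr i h4)⟩
      have h4 := card_insert_le r J
      have h5 : 1 ≤ C.card := by
        by_contra h6
        have h7 : C.card = 0 := by omega
        rw [h7] at hJ
        omega
      nlinarith
    rw [ENNReal.le_div_iff_mul_le (Or.inl (by rw [Nat.cast_ne_zero]; omega))
      (Or.inl (ENNReal.natCast_ne_top _)), mul_comm, ← div_eq_mul_inv,
      ENNReal.div_le_iff (by rw [Nat.cast_ne_zero]; omega) (ENNReal.natCast_ne_top _)]
    exact_mod_cast h1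
  have hpend : ∀ i j, toughness (G.deleteEdges {s(c i, d i j)}) < toughness G := by
    intro i j
    have h1 : ({c i, d i j} : Finset V).card ≤ numComp (G.deleteEdges {s(c i, d i j)}) ∅ := by
      refine numComp_ge _ ∅ _ (fun v => decide (v = d i j)) ?_ (by simp) ?_
      · have aux : ∀ a, ¬ (G.deleteEdges {s(c i, d i j)}).Adj a (d i j) := by
          intro a ha
          rw [SimpleGraph.deleteEdges_adj] at ha
          rcases hcases a with ⟨i', rfl⟩ | ⟨i', j', rfl⟩
          · rw [(acd _ _ _).1 ha.1] at ha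
            exact ha.2 rfl
          · exact add _ _ _ _ ha.1
        intro a b _ _ hab
        have h2 : b ≠ d i j := by rintro rfl; exact aux a hab
        have h3 : a ≠ d i j := by rintro rfl; exact aux b hab.symm
        simp [h2, h3]
      · intro a ha b hb hab
        simp only [mem_insert, mem_singleton] at ha hb
        rcases ha with rfl | rfl <;> rcases hb with rfl | rfl
        · rfl
        · simp [hcd] at hab
        · simp [hcd] at hab
        · rfl
    rw [card_pair (hcd i i j)] at h1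
    refine lt_of_le_of_lt (toughness_le _ ∅ h1) (lt_of_lt_of_le ?_ hlow)
    simp
  have htri : ∀ i i', i ≠ i' → toughness (G.deleteEdges {s(c i, c i')}) < toughness G := by
    intro i i' hii
    obtain ⟨m, hm1, hm2, hm3⟩ : ∃ m : Fin 3, m ≠ i ∧ m ≠ i' ∧ ∀ k, k ≠ m → k = i ∨ k = i' := by
      revert i i'
      decide
    let J : Finset V := insert (c i) (insert (c i') (univ.image (d m)))
    have hJ : J.card = l + 2 := by
      rw [card_insert_of_notMem, card_insert_of_notMem, card_image_of_injective _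
        (fun j j' h => ((hdd _ _ _ _).1 h).2)]
      · simp
      · simp [Ne.symm (hcd _ _ _)]
      · simp [Ne.symm (hcd _ _ _), hcc, hii]
    have h1 : J.card ≤ numComp (G.deleteEdges {s(c i, c i')}) {c m} := by
      refine numComp_ge _ _ _ (fun v => if (φ v).1 = m then φ v else ((φ v).1, none)) ?_ ?_ ?_
      · intro a b ha hb hab
        rw [SimpleGraph.deleteEdges_adj] at hab
        rw [mem_singleton] at ha hb
        rcases hcases a with ⟨k, rfl⟩ | ⟨k, j, rfl⟩ <;> rcases hcases b with ⟨k', rfl⟩ | ⟨k', j', rfl⟩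
        · exfalso
          have h2 := (acc _ _).1 hab.1
          rw [hcc] at ha hb
          apply hab.2
          rcases hm3 k ha with rfl | rfl <;> rcases hm3 k' hb with rfl | rfl
          · exact absurd rfl h2
          · rfl
          · exact Sym2.eq_swap
          · exact absurd rfl h2
        · have h2 := (acd _ _ _).1 hab.1
          subst h2
          rw [hcc] at ha
          simp [hc, hd, ha]
        · have h2 := (acd _ _ _).1 hab.1.symm
          subst h2
          rw [hcc] at hb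
          simp [hc, hd, hb]
        · exact absurd hab.1 (add _ _ _ _)
      · intro j hj
        simp only [J, mem_insert, mem_image, mem_univ, true_and] at hj
        rcases hj with rfl | rfl | ⟨j', rfl⟩
        · simp [hcc, hm1.symm]
        · simp [hcc, hm2.symm]
        · simp [Ne.symm (hcd _ _ _)]
      · intro a ha b hb hab
        have aux : ∀ a ∈ J, (if (φ a).1 = m then φ a else ((φ a).1, none)) = φ a := by
          intro a ha
          simp only [J, mem_insert, mem_image, mem_univ, true_and] at ha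
          rcases ha with rfl | rfl | ⟨j', rfl⟩ <;> simp [hc, hd]
        simp only [aux a ha, aux b hb] at hab
        exact φ.injective hab
    rw [hJ] at h1
    refine lt_of_le_of_lt (toughness_le _ {c m} (by omega)) (lt_of_lt_of_le ?_ hlow)
    rw [card_singleton, Nat.cast_one, one_div, ENNReal.inv_lt_inv]
    exact_mod_cast (by omega)
  refine ⟨?_, ?_, ?_⟩
  · intro h
    refine add 0 ⟨0, hl⟩ 1 ⟨0, hl⟩ ?_
    rw [h, SimpleGraph.top_adj, Ne, hdd]
    simp
  · intro h
    have := (acc 0 1).2 (by decide)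
    rw [h] at this
    exact this
  · intro e he
    induction e using Sym2.ind with
    | h a b =>
      rw [SimpleGraph.mem_edgeSet] at he
      rcases hcases a with ⟨k, rfl⟩ | ⟨k, j, rfl⟩ <;> rcases hcases b with ⟨k', rfl⟩ | ⟨k', j', rfl⟩
      · exact htri k k' ((acc _ _).1 he)
      · rw [(acd _ _ _).1 he]; exact hpend _ _
      · rw [Sym2.eq_swap, (acd _ _ _).1 he.symm]; exact hpend _ _
      · exact absurd he (add _ _ _ _)

end Pool.Agent.Lib.MP_c98209_co
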